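import Pool.Agent.Lib.MP_fd4af6_gt.Geo

/-! The geometric distance is at most twelve times the uniform distance. -/

set_option autoImplicit false

open Set Real MeasureTheory intervalIntegral Filter Topology
open scoped ContDiff ENNReal ComplexConjugate

namespace Pool.Agent.Lib.MP_fd4af6_gt

lemma curve_apply {Λ : ℝ → ℝ} (A : Adm Λ) (w : ℂ) (φ : ℝ) : curve Λ w (Λ φ) = XX Λ w φ := by
  rw [A.curve_eq, A.inv_apply]

lemma im_le {Λ₀ Λ₁ : ℝ → ℝ} (A₀ : Adm Λ₀) (A₁ : Adm Λ₁) {w₀ w₁ : ℂ} {δ : ℝ}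
    (hδ : ∀ q, ‖curve Λ₀ w₀ q - curve Λ₁ w₁ q‖ ≤ δ) (φ : ℝ) :
    ((XX Λ₁ w₁ φ - XX Λ₀ w₀ φ) * ex (-φ)).im ≤ δ := by
  have h1 := A₁.gap_nonneg w₁ φ (Function.invFun Λ₁ (Λ₀ φ))
  rw [← A₁.curve_eq, gap] at h1
  have h2 := hδ (Λ₀ φ)
  rw [curve_apply A₀, norm_sub_rev] at h2
  have h3 : ((curve Λ₁ w₁ (Λ₀ φ) - XX Λ₀ w₀ φ) * ex (-φ)).im ≤ δ := by
    refine (Complex.im_le_norm _).trans ?_
    rwa [norm_mul, norm_ex, mul_one]
  simp only [sub_mul, Complex.sub_im] at h1 h3 ⊢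
  linarith

lemma exists_base {Λ₀ Λ₁ : ℝ → ℝ} (A₀ : Adm Λ₀) (A₁ : Adm Λ₁) {w₀ w₁ : ℂ} {δ : ℝ}
    (hδ : ∀ q, ‖curve Λ₀ w₀ q - curve Λ₁ w₁ q‖ ≤ δ) :
    ∃ q, 1 - cos (Function.invFun Λ₁ q - Function.invFun Λ₀ q) ≤ 2 * π * δ := by
  set a := Function.invFun Λ₀
  set b := Function.invFun Λ₁
  set c : ℝ → ℂ := fun q => curve Λ₀ w₀ q - curve Λ₁ w₁ q with hc
  have hd : ∀ q, HasDerivAt
      (fun q => (star (c q) * (ex (a q) - ex (b q))).re + δ * (a q + b q))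
      ((star (ex (a q) - ex (b q)) * (ex (a q) - ex (b q)) + star (c q) *
        (deriv a q • (Complex.I * ex (a q)) - deriv b q • (Complex.I * ex (b q)))).re +
        δ * (deriv a q + deriv b q)) q := fun q => by
    have h1 := ((A₀.hasDerivAt_curve w₀ q).sub (A₁.hasDerivAt_curve w₁ q)).star
    have h2 := ((hasDerivAt_ex (a q)).scomp q (A₀.inv_hasDerivAt q)).sub
      ((hasDerivAt_ex (b q)).scomp q (A₁.inv_hasDerivAt q))
    exact (Complex.reCLM.hasFDerivAt.comp_hasDerivAt q (h1.mul h2)).add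
      (((A₀.inv_hasDerivAt q).add (A₁.inv_hasDerivAt q)).const_mul δ)
  obtain ⟨q, -, hq⟩ := exists_hasDerivAt_eq_slope _ _ zero_lt_one
    (fun q _ => (hd q).continuousAt.continuousWithinAt) fun q _ => hd q
  refine ⟨q, ?_⟩
  have pa : a 1 = a 0 + 2 * π := by simpa using A₀.inv_add_one 0
  have pb : b 1 = b 0 + 2 * π := by simpa using A₁.inv_add_one 0
  have pc : c 1 = c 0 := by
    have h1 := (A₀.isConvexLoop_curve w₀).2.1 0
    have h2 := (A₁.isConvexLoop_curve w₁).2.1 0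
    rw [zero_add] at h1 h2
    simp only [hc, h1, h2]
  rw [pa, pb, pc, ex_add_two_pi, ex_add_two_pi, Complex.add_re] at hq
  have h1 : (star (ex (a q) - ex (b q)) * (ex (a q) - ex (b q))).re = 2 - 2 * cos (b q - a q) := by
    simp only [Complex.star_def, Complex.mul_re, Complex.conj_re, Complex.conj_im, Complex.sub_re,
      Complex.sub_im, ex_re, ex_im, cos_sub]
    nlinarith [sin_sq_add_cos_sq (a q), sin_sq_add_cos_sq (b q)]
  have ha : 0 < deriv a q := A₀.inv_dpos q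
  have hb : 0 < deriv b q := A₁.inv_dpos q
  have h2 : ‖star (c q) * (deriv a q • (Complex.I * ex (a q)) -
      deriv b q • (Complex.I * ex (b q)))‖ ≤ δ * (deriv a q + deriv b q) := by
    rw [norm_mul, norm_star]
    refine mul_le_mul (hδ q) ((norm_sub_le _ _).trans ?_) (norm_nonneg _)
      ((norm_nonneg _).trans (hδ q))
    simp [norm_ex, abs_of_pos ha, abs_of_pos hb]
  have h3 := (abs_le.1 ((Complex.abs_re_le_norm _).trans h2)).1
  rw [h1] at hq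
  linarith

lemma re_base {Λ : ℝ → ℝ} (A : Adm Λ) (w : ℂ) {φ θ : ℝ} (h : |θ - φ| ≤ π) :
    |((XX Λ w φ - XX Λ w θ) * ex (-φ)).re - (Λ φ - Λ θ)| ≤ 1 - cos (θ - φ) := by
  set b := Function.invFun Λ
  have hd : ∀ s, HasDerivAt (fun s => (curve Λ w s * ex (-φ)).re - s) (cos (b s - φ) - 1) s :=
    fun s => by
      have h1 := (Complex.reCLM.hasFDerivAt.comp_hasDerivAt s
        ((A.hasDerivAt_curve w s).mul_const (ex (-φ)))).sub (hasDerivAt_id s)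
      refine h1.congr_deriv ?_
      rw [← ex_add]
      simp [ex_re, sub_eq_add_neg, b]
  have hb : ∀ s ∈ uIcc (Λ θ) (Λ φ), ‖cos (b s - φ) - 1‖ ≤ 1 - cos (θ - φ) := fun s hs => by
    have h1 : b s ∈ uIcc θ φ := by
      have := (A.inv_strictMono.monotone.monotoneOn _).mapsTo_uIcc hs
      rwa [A.inv_apply, A.inv_apply] at this
    have h2 : |b s - φ| ≤ |θ - φ| := by
      rw [abs_sub_comm, abs_sub_comm θ]
      exact abs_sub_right_of_mem_uIcc h1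
    have h3 := cos_le_cos_of_nonneg_of_le_pi (abs_nonneg _) h h2
    rw [cos_abs, cos_abs] at h3
    rw [Real.norm_eq_abs, abs_sub_comm, abs_of_nonneg (sub_nonneg.2 (cos_le_one _))]
    linarith
  have h1 := (convex_uIcc (Λ θ) (Λ φ)).norm_image_sub_le_of_norm_hasDerivWithin_le
    (fun s _ => (hd s).hasDerivWithinAt) hb left_mem_uIcc right_mem_uIcc
  have h2 : |Λ φ - Λ θ| ≤ 1 := by
    have h3 := abs_le.1 h
    have h4 := A.strictMono.monotone (show φ ≤ θ + 2 * π by linarith [pi_pos])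
    have h5 := A.strictMono.monotone (show θ ≤ φ + 2 * π by linarith [pi_pos])
    rw [A.per] at h4 h5
    exact abs_le.2 ⟨by linarith, by linarith⟩
  rw [curve_apply A, curve_apply A, Real.norm_eq_abs, Real.norm_eq_abs] at h1
  refine le_trans (le_of_eq ?_) (h1.trans
    (mul_le_of_le_one_right (sub_nonneg.2 (cos_le_one _)) h2))
  congr 1
  simp only [sub_mul, Complex.sub_re]
  ring

lemma EE_close {Λ₀ Λ₁ : ℝ → ℝ} (A₀ : Adm Λ₀) (A₁ : Adm Λ₁) {w₀ w₁ : ℂ} {δ : ℝ}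
    (hδ : ∀ q, ‖curve Λ₀ w₀ q - curve Λ₁ w₁ q‖ ≤ δ) {φ₀ θ : ℝ} (h0 : Λ₁ θ = Λ₀ φ₀)
    (h1 : |θ - φ₀| ≤ π) (h2 : 1 - cos (θ - φ₀) ≤ 2 * π * δ) (φ : ℝ) :
    ‖EE Λ₁ w₁ φ - EE Λ₀ w₀ φ‖ ≤ (2 + 3 * π) * δ := by
  set F : ℝ → ℂ := fun φ => (EE Λ₁ w₁ φ - EE Λ₀ w₀ φ) * ex (-φ) with hF
  have hδ0 : 0 ≤ δ := (norm_nonneg _).trans (hδ 0)
  have hX : ∀ φ, F φ = (XX Λ₁ w₁ φ - XX Λ₀ w₀ φ) * ex (-φ) - (Λ₁ φ - Λ₀ φ : ℝ) := fun φ => by
    simp only [hF, EE, XX]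
    push_cast
    linear_combination (-(Λ₁ φ : ℂ) + Λ₀ φ) * ex_neg_mul φ
  have him : ∀ φ, |(F φ).im| ≤ δ := fun φ => by
    have a := im_le A₀ A₁ hδ φ
    have b := im_le A₁ A₀ (fun q => by rw [norm_sub_rev]; exact hδ q) φ
    rw [hX, Complex.sub_im, Complex.ofReal_im, sub_zero, abs_le]
    simp only [sub_mul, Complex.sub_im] at a b ⊢
    constructor <;> linarith
  have hd : ∀ φ, HasDerivAt (fun φ => (F φ).re) (F φ).im φ := fun φ => by
    have e0 := ((hasDerivAt_II A₀.smooth.continuous φ).const_mul Complex.I).const_sub w₀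
    have e1 := ((hasDerivAt_II A₁.smooth.continuous φ).const_mul Complex.I).const_sub w₁
    have e2 := (e1.sub e0).mul ((hasDerivAt_ex (-φ)).scomp φ (hasDerivAt_neg φ))
    have e3 : HasDerivAt F (Complex.I * (Λ₀ φ - Λ₁ φ : ℝ) - Complex.I * F φ) φ := by
      refine e2.congr_deriv ?_
      simp only [hF, EE, Function.comp, Complex.real_smul, Pi.sub_apply]
      push_cast
      linear_combination (Complex.I * (Λ₀ φ - Λ₁ φ)) * ex_neg_mul φ
    refine (Complex.reCLM.hasFDerivAt.comp_hasDerivAt φ e3).congr_deriv ?_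
    simp
  have hper : Function.Periodic F (2 * π) := fun φ => by
    rw [hX, hX, A₀.XX_per w₀ φ, A₁.XX_per w₁ φ, A₀.per, A₁.per, ← ex_add_two_pi (-(φ + 2 * π))]
    congr 2 <;> ring_nf
  have hb : |(F φ₀).re| ≤ δ + 2 * π * δ := by
    have a := re_base A₁ w₁ h1
    have b := hδ (Λ₀ φ₀)
    rw [curve_apply A₀, ← h0, curve_apply A₁, norm_sub_rev] at b
    have c : |((XX Λ₁ w₁ θ - XX Λ₀ w₀ φ₀) * ex (-φ₀)).re| ≤ δ := by
      refine (Complex.abs_re_le_norm _).trans ?_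
      rwa [norm_mul, norm_ex, mul_one]
    rw [hX, Complex.sub_re, Complex.ofReal_re, ← h0]
    rw [abs_le] at a c ⊢
    simp only [sub_mul, Complex.sub_re] at a c ⊢
    constructor <;> linarith [a.1, a.2, c.1, c.2]
  obtain ⟨y, hy, he⟩ := hper.exists_mem_Ico (by positivity) φ (φ₀ - π)
  have h3 := convex_univ.norm_image_sub_le_of_norm_hasDerivWithin_le
    (fun s _ => (hd s).hasDerivWithinAt) (fun s _ => him s) (mem_univ φ₀) (mem_univ y)
  have h4 : ‖y - φ₀‖ ≤ π := abs_le.2 ⟨by linarith [hy.1], by linarith [hy.2]⟩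
  have h5 := abs_le.1 (h3.trans (mul_le_mul_of_nonneg_left h4 hδ0))
  have h6 : ‖EE Λ₁ w₁ φ - EE Λ₀ w₀ φ‖ = ‖F y‖ := by
    rw [← he, hF, norm_mul, norm_ex, mul_one]
  have h7 : |(F y).re| ≤ δ + 3 * π * δ := by
    have := abs_le.1 hb
    exact abs_le.2 ⟨by linarith [h5.1], by linarith [h5.2]⟩
  rw [h6]
  linarith [Complex.norm_le_abs_re_add_abs_im (F y), him y]

theorem dB_le_of_close {α β : ℝ → ℂ} (hα : IsTable α) (hβ : IsTable β) {δ : ℝ}
    (hδ : ∀ q, ‖α q - β q‖ ≤ δ) : dB α β ≤ ENNReal.ofReal ((2 + 3 * π) * δ) := by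
  obtain ⟨a, ha⟩ := (Complex.norm_eq_one_iff _).1 (hα.2.2.1 0)
  obtain ⟨b, hb⟩ := (Complex.norm_eq_one_iff _).1 (hβ.2.2.1 0)
  obtain ⟨Λ₀, w₀, A₀, rfl, -⟩ := table_rep hα ha.symm
  obtain ⟨Λ, w, A, e, -⟩ := table_rep hβ hb.symm
  obtain ⟨q, hq⟩ := exists_base A₀ A (e ▸ hδ)
  set φ₀ := Function.invFun Λ₀ q
  set θ := Function.invFun Λ q
  set k := round ((θ - φ₀) / (2 * π))
  have hp : 0 < 2 * π := by positivity
  have h1 : |θ - k * (2 * π) - φ₀| ≤ π := by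
    have h2 := abs_sub_round ((θ - φ₀) / (2 * π))
    have h3 : θ - k * (2 * π) - φ₀ = ((θ - φ₀) / (2 * π) - k) * (2 * π) := by
      field_simp
      ring
    rw [h3, abs_mul, abs_of_pos hp]
    nlinarith
  have h2 : deriv β q = ex (θ - k * (2 * π)) := by
    rw [e, (A.hasDerivAt_curve w q).deriv, ex_periodic.sub_int_mul_eq]
  obtain ⟨Λ₁, w₁, A₁, e₁, h3⟩ := table_rep hβ h2
  rw [e₁] at hδ ⊢
  refine dB_le_EE A₀ A₁ w₀ w₁ (EE_close A₀ A₁ hδ (h3.trans (A₀.apply_inv q).symm) h1 ?_)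
  rwa [sub_right_comm, cos_sub_int_mul_two_pi]

end Pool.Agent.Lib.MP_fd4af6_gt
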