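import Mathlib

/-!
Definitions for the problem on billiard tables and the geometric distance `d_B`.
The plane `ℝ²` with the Euclidean norm is modelled by `ℂ`, and a map `S¹ = ℝ/ℤ → ℝ²` by a
`1`-periodic map `ℝ → ℂ`.
-/

set_option autoImplicit false

open scoped ENNReal ContDiff

namespace Pool.Agent.Lib.MP_fd4af6_gt

/-- `γ` is a continuous simple closed curve `ℝ/ℤ → ℂ` that bounds a convex set and runs
counterclockwise: its image is the boundary of a compact convex set `K`, and around some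
interior point `p` of `K` a continuous argument `θ` of `γ - p` grows by `2π` over one period
(winding number `+1`). -/
def IsConvexLoop (γ : ℝ → ℂ) : Prop :=
  Continuous γ ∧ Function.Periodic γ 1 ∧ Set.InjOn γ (Set.Ico 0 1) ∧
    ∃ K : Set ℂ, IsCompact K ∧ Convex ℝ K ∧ frontier K = Set.range γ ∧
      ∃ p ∈ interior K, ∃ θ : ℝ → ℝ, Continuous θ ∧
        (∀ t, γ t - p = (‖γ t - p‖ : ℂ) * Complex.exp (θ t * Complex.I)) ∧
        θ 1 = θ 0 + 2 * Real.pi

/-- A billiard table: the counterclockwise arc-length parametrization `γ` of the boundary of a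
convex body, smooth, of unit speed (so the boundary has length `1`) and with strictly positive
curvature `det (γ', γ'')`. The marked point is `γ 0`. -/
def IsTable (γ : ℝ → ℂ) : Prop :=
  IsConvexLoop γ ∧ ContDiff ℝ ∞ γ ∧ (∀ q, ‖deriv γ q‖ = 1) ∧
    ∀ q, 0 < ((starRingEnd ℂ) (deriv γ q) * deriv (deriv γ) q).im

/-- `H` is a smooth homotopy `(H s)_{s ∈ [0,1]}` from `α` to `β` through billiard tables. -/
def IsHomotopy (α β : ℝ → ℂ) (H : ℝ → ℝ → ℂ) : Prop :=
  ContDiffOn ℝ ∞ (Function.uncurry H) (Set.Icc 0 1 ×ˢ Set.univ) ∧ H 0 = α ∧ H 1 = β ∧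
    ∀ s ∈ Set.Icc (0 : ℝ) 1, IsTable (H s)

/-- The geometric distance `d_B(α, β)`: the infimum over smooth homotopies through billiard
tables of `∫₀¹ max_q ‖∂H/∂s (s, q)‖ ds`, with values in `[0, ∞]`. -/
noncomputable def dB (α β : ℝ → ℂ) : ℝ≥0∞ :=
  ⨅ (H : ℝ → ℝ → ℂ) (_ : IsHomotopy α β H),
    ∫⁻ s in Set.Ioo (0 : ℝ) 1, ⨆ q : ℝ, ‖deriv (fun s' => H s' q) s‖ₑ

end Pool.Agent.Lib.MP_fd4af6_gt
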