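import Pool.Agent.Lib.MP_fd4af6_gt.Rep

/-! Upper and lower bounds for the geometric distance. -/

set_option autoImplicit false

open Set Real MeasureTheory intervalIntegral Filter Topology
open scoped ContDiff ENNReal ComplexConjugate

namespace Pool.Agent.Lib.MP_fd4af6_gt

/-- the involute of the table, parametrized by the tangent angle -/
noncomputable def EE (Λ : ℝ → ℝ) (w : ℂ) (φ : ℝ) : ℂ := w - Complex.I * II Λ φ

lemma lintegral_transition (D : ℝ) (hD : 0 ≤ D) :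
    ∫⁻ s in Ioo (0 : ℝ) 1, ENNReal.ofReal (deriv Real.smoothTransition s * D) =
      ENNReal.ofReal D := by
  have hc : Continuous (deriv Real.smoothTransition) :=
    (Real.smoothTransition.contDiff (n := 1)).continuous_deriv (by simp)
  have hd : ∀ s, HasDerivAt Real.smoothTransition (deriv Real.smoothTransition s) s := fun s =>
    ((Real.smoothTransition.contDiff (n := 1)).differentiable (by simp) s).hasDerivAt
  have hi : IntegrableOn (fun s => deriv Real.smoothTransition s * D) (Ioo 0 1) :=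
    ((hc.mul continuous_const).integrableOn_Icc).mono_set Ioo_subset_Icc_self
  rw [← ofReal_integral_eq_lintegral_ofReal hi (Eventually.of_forall fun s =>
    mul_nonneg Real.smoothTransition.monotone.deriv_nonneg hD), ← integral_Ioc_eq_integral_Ioo,
    ← intervalIntegral.integral_of_le zero_le_one, intervalIntegral.integral_mul_const,
    integral_eq_sub_of_hasDerivAt (fun s _ => hd s) (hc.intervalIntegrable _ _)]
  simp

theorem dB_le_EE {Λ₀ Λ₁ : ℝ → ℝ} (A₀ : Adm Λ₀) (A₁ : Adm Λ₁) (w₀ w₁ : ℂ) {D : ℝ}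
    (hD : ∀ φ, ‖EE Λ₁ w₁ φ - EE Λ₀ w₀ φ‖ ≤ D) :
    dB (curve Λ₀ w₀) (curve Λ₁ w₁) ≤ ENNReal.ofReal D := by
  set σ := Real.smoothTransition with hσ
  have hσs : ContDiff ℝ ∞ σ := Real.smoothTransition.contDiff
  have hA : ∀ s, Adm (mix Λ₀ Λ₁ (σ s)) := fun s =>
    adm_mix A₀ A₁ (Real.smoothTransition.nonneg s) (Real.smoothTransition.le_one s)
  set H : ℝ → ℝ → ℂ := fun s => curve (mix Λ₀ Λ₁ (σ s)) ((1 - σ s) * w₀ + σ s * w₁) with hH
  set Θ : ℝ × ℝ → ℝ := fun y => Function.invFun (mix Λ₀ Λ₁ (σ y.1)) y.2 with hΘ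
  have hΘs : ContDiff ℝ ∞ Θ := by
    have hF : ContDiff ℝ ∞ (fun p : ℝ × ℝ => mix Λ₀ Λ₁ (σ p.1) p.2) :=
      ((contDiff_const.sub (hσs.comp contDiff_fst)).mul (A₀.smooth.comp contDiff_snd)).add
        ((hσs.comp contDiff_fst).mul (A₁.smooth.comp contDiff_snd))
    exact contDiff_invFun_family hF (fun s φ => (hA s).dpos φ) (fun s => (hA s).surj)
  have hform : ∀ s q, H s q = (1 - (σ s : ℂ)) * EE Λ₀ w₀ (Θ (s, q))
      + σ s * EE Λ₁ w₁ (Θ (s, q)) + q * ex (Θ (s, q)) := by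
    intro s q
    simp only [hH, hΘ, curve, EE]
    rw [II_mix A₀.smooth.continuous A₁.smooth.continuous]
    ring
  have hσc : ContDiff ℝ ∞ (fun p : ℝ × ℝ => (σ p.1 : ℂ)) :=
    Complex.ofRealCLM.contDiff.comp (hσs.comp contDiff_fst)
  have hE : ∀ {Λ : ℝ → ℝ} (w : ℂ), Adm Λ → ContDiff ℝ ∞ (EE Λ w) := fun w A =>
    contDiff_const.sub (contDiff_const.mul (contDiff_II A.smooth))
  have hEd : ∀ {Λ : ℝ → ℝ} (w : ℂ), Adm Λ → ∀ φ,
      HasDerivAt (EE Λ w) (-(Complex.I * (ex φ * Λ φ))) φ := fun w A φ =>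
    ((hasDerivAt_II A.smooth.continuous φ).const_mul Complex.I).const_sub w
  have hHs : ContDiff ℝ ∞ (Function.uncurry H) := by
    have : Function.uncurry H = fun p : ℝ × ℝ => (1 - (σ p.1 : ℂ)) * EE Λ₀ w₀ (Θ p)
        + σ p.1 * EE Λ₁ w₁ (Θ p) + p.2 * ex (Θ p) := funext fun p => hform p.1 p.2
    rw [this]
    exact (((contDiff_const.sub hσc).mul ((hE w₀ A₀).comp hΘs)).add
        (hσc.mul ((hE w₁ A₁).comp hΘs))).add
      ((Complex.ofRealCLM.contDiff.comp contDiff_snd).mul (contDiff_ex.comp hΘs))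
  have hhom : IsHomotopy (curve Λ₀ w₀) (curve Λ₁ w₁) H := by
    refine ⟨hHs.contDiffOn, ?_, ?_, fun s _ => (hA s).isTable_curve _⟩
    · have : mix Λ₀ Λ₁ (σ 0) = Λ₀ := by
        ext φ; simp [mix, hσ, Real.smoothTransition.zero]
      simp only [hH, this]
      simp [hσ]
    · have : mix Λ₀ Λ₁ (σ 1) = Λ₁ := by
        ext φ; simp [mix, hσ, Real.smoothTransition.one]
      simp only [hH, this]
      simp [hσ]
  have hder : ∀ s q, HasDerivAt (fun s' => H s' q)
      ((deriv σ s : ℝ) * (EE Λ₁ w₁ (Θ (s, q)) - EE Λ₀ w₀ (Θ (s, q)))) s := by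
    intro s q
    have hθd : DifferentiableAt ℝ (fun s' => Θ (s', q)) s :=
      ((hΘs.comp (contDiff_id.prodMk contDiff_const)).differentiable (by simp)) s
    have hθ := hθd.hasDerivAt
    set θ' := deriv (fun s' => Θ (s', q)) s
    have hσd : HasDerivAt (fun s' => (σ s' : ℂ)) ((deriv σ s : ℝ) : ℂ) s :=
      ((hσs.differentiable (by simp)) s).hasDerivAt.ofReal_comp
    have h0 := (hEd w₀ A₀ (Θ (s, q))).scomp s hθ
    have h1 := (hEd w₁ A₁ (Θ (s, q))).scomp s hθ
    have h2 := (hasDerivAt_ex (Θ (s, q))).scomp s hθ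
    have h4 := (((hσd.const_sub 1).mul h0).add (hσd.mul h1)).add (h2.const_mul (q : ℂ))
    have hq : (1 - (σ s : ℂ)) * Λ₀ (Θ (s, q)) + σ s * Λ₁ (Θ (s, q)) = q := by
      have := (hA s).apply_inv q
      unfold mix at this
      exact_mod_cast this
    have hfun : (fun s' => H s' q) = fun s' => (1 - (σ s' : ℂ)) * EE Λ₀ w₀ (Θ (s', q))
      + σ s' * EE Λ₁ w₁ (Θ (s', q)) + q * ex (Θ (s', q)) := funext fun s' => hform s' q
    rw [hfun]
    refine h4.congr_deriv ?_
    simp only [Complex.real_smul, Function.comp]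
    linear_combination (-Complex.I * θ' * ex (Θ (s, q))) * hq
  unfold dB
  refine (iInf₂_le H hhom).trans ?_
  rw [← lintegral_transition D ((norm_nonneg _).trans (hD 0))]
  refine lintegral_mono fun s => iSup_le fun q => ?_
  have h0 : 0 ≤ deriv σ s := Real.smoothTransition.monotone.deriv_nonneg
  rw [(hder s q).deriv, ← ofReal_norm]
  apply ENNReal.ofReal_le_ofReal
  rw [norm_mul, Complex.norm_real, Real.norm_of_nonneg h0]
  exact mul_le_mul_of_nonneg_left (hD _) h0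

theorem le_dB (α β : ℝ → ℂ) : ⨆ q : ℝ, ‖α q - β q‖ₑ ≤ dB α β := by
  refine iSup_le fun q => le_iInf₂ fun H hH => ?_
  obtain ⟨hs, h0, h1, -⟩ := hH
  have hq : ContDiffOn ℝ 1 (fun s => H s q) (Icc 0 1) :=
    (hs.of_le (by simp)).comp (contDiff_id.prodMk contDiff_const).contDiffOn
      fun s hs => ⟨hs, mem_univ _⟩
  have h2 := enorm_sub_le_lintegral_deriv_of_contDiffOn_Icc hq zero_le_one
  rw [h0, h1, ← restrict_Ioo_eq_restrict_Icc, enorm_sub_rev] at h2
  exact h2.trans (lintegral_mono fun s => le_iSup (fun q => ‖deriv (fun s' => H s' q) s‖ₑ) q)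

end Pool.Agent.Lib.MP_fd4af6_gt
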