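import Pool.Agent.Lib.MP_fd4af6_gt.Table

/-! Interpolating inverse tangent-angle functions bounds the geometric distance. -/

set_option autoImplicit false

open Set Real MeasureTheory intervalIntegral Filter Topology
open scoped ContDiff ENNReal

namespace Pool.Agent.Lib.MP_fd4af6_gt

/-- convex combination of two functions -/
noncomputable def mix (Λ₀ Λ₁ : ℝ → ℝ) (a : ℝ) (φ : ℝ) : ℝ := (1 - a) * Λ₀ φ + a * Λ₁ φ

lemma II_mix {Λ₀ Λ₁ : ℝ → ℝ} (h₀ : Continuous Λ₀) (h₁ : Continuous Λ₁) (a φ : ℝ) :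
    II (mix Λ₀ Λ₁ a) φ = (1 - a) * II Λ₀ φ + a * II Λ₁ φ := by
  unfold II mix
  rw [← intervalIntegral.integral_const_mul, ← intervalIntegral.integral_const_mul,
    ← intervalIntegral.integral_add]
  · congr 1; ext t; push_cast; ring
  · exact (ii_ex_mul (h₀.intervalIntegrable _ _)).const_mul _
  · exact (ii_ex_mul (h₁.intervalIntegrable _ _)).const_mul _

lemma hasDerivAt_mix {Λ₀ Λ₁ : ℝ → ℝ} (A₀ : Adm Λ₀) (A₁ : Adm Λ₁) (a φ : ℝ) :
    HasDerivAt (mix Λ₀ Λ₁ a) ((1 - a) * deriv Λ₀ φ + a * deriv Λ₁ φ) φ :=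
  ((A₀.hasDerivAt φ).const_mul (1 - a)).add ((A₁.hasDerivAt φ).const_mul a)

lemma adm_mix {Λ₀ Λ₁ : ℝ → ℝ} (A₀ : Adm Λ₀) (A₁ : Adm Λ₁) {a : ℝ} (h0 : 0 ≤ a) (h1 : a ≤ 1) :
    Adm (mix Λ₀ Λ₁ a) where
  smooth := (contDiff_const.mul A₀.smooth).add (contDiff_const.mul A₁.smooth)
  dpos φ := by
    rw [(hasDerivAt_mix A₀ A₁ a φ).deriv]
    have p0 := A₀.dpos φ
    have p1 := A₁.dpos φ
    rcases eq_or_lt_of_le h0 with h | h
    · rw [← h]; simpa using p0
    · nlinarith [mul_nonneg (sub_nonneg.2 h1) p0.le, mul_pos h p1]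
  per φ := by simp only [mix, A₀.per, A₁.per]; ring
  closing := by
    rw [II_mix A₀.smooth.continuous A₁.smooth.continuous, A₀.closing, A₁.closing]; ring

lemma exists_bound_transition :
    ∃ M : ℝ, 0 ≤ M ∧ ∀ s ∈ Icc (0 : ℝ) 1, |deriv Real.smoothTransition s| ≤ M := by
  have hc : Continuous (deriv Real.smoothTransition) :=
    (Real.smoothTransition.contDiff (n := 1)).continuous_deriv (by simp)
  obtain ⟨M, hM⟩ := isCompact_Icc.exists_bound_of_continuousOn (s := Icc (0 : ℝ) 1)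
    hc.continuousOn
  exact ⟨M, (norm_nonneg _).trans (hM 0 ⟨le_rfl, zero_le_one⟩), fun s hs => hM s hs⟩

theorem dB_le {M : ℝ} (hM : ∀ s ∈ Icc (0 : ℝ) 1, |deriv Real.smoothTransition s| ≤ M)
    {Λ₀ Λ₁ : ℝ → ℝ} (A₀ : Adm Λ₀) (A₁ : Adm Λ₁) (w : ℂ) {D : ℝ}
    (hD : ∀ φ, ‖II Λ₁ φ - II Λ₀ φ‖ ≤ D) :
    dB (curve Λ₀ w) (curve Λ₁ w) ≤ ENNReal.ofReal (M * D) := by
  set σ := Real.smoothTransition with hσ
  have hσs : ContDiff ℝ ∞ σ := Real.smoothTransition.contDiff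
  have hA : ∀ s, Adm (mix Λ₀ Λ₁ (σ s)) := fun s =>
    adm_mix A₀ A₁ (Real.smoothTransition.nonneg s) (Real.smoothTransition.le_one s)
  set H : ℝ → ℝ → ℂ := fun s => curve (mix Λ₀ Λ₁ (σ s)) w with hH
  set Θ : ℝ × ℝ → ℝ := fun y => Function.invFun (mix Λ₀ Λ₁ (σ y.1)) y.2 with hΘ
  have hΘs : ContDiff ℝ ∞ Θ := by
    have hF : ContDiff ℝ ∞ (fun p : ℝ × ℝ => mix Λ₀ Λ₁ (σ p.1) p.2) :=
      ((contDiff_const.sub (hσs.comp contDiff_fst)).mul (A₀.smooth.comp contDiff_snd)).add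
        ((hσs.comp contDiff_fst).mul (A₁.smooth.comp contDiff_snd))
    exact contDiff_invFun_family hF (fun s φ => (hA s).dpos φ) (fun s => (hA s).surj)
  have hform : ∀ s q, H s q = w - Complex.I * ((1 - (σ s : ℂ)) * II Λ₀ (Θ (s, q))
      + σ s * II Λ₁ (Θ (s, q))) + q * ex (Θ (s, q)) := by
    intro s q
    simp only [hH, hΘ, curve]
    rw [II_mix A₀.smooth.continuous A₁.smooth.continuous]
  have hσc : ContDiff ℝ ∞ (fun p : ℝ × ℝ => (σ p.1 : ℂ)) :=
    Complex.ofRealCLM.contDiff.comp (hσs.comp contDiff_fst)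
  have hHs : ContDiff ℝ ∞ (Function.uncurry H) := by
    have : Function.uncurry H = fun p : ℝ × ℝ => w - Complex.I * ((1 - (σ p.1 : ℂ)) * II Λ₀ (Θ p)
        + σ p.1 * II Λ₁ (Θ p)) + p.2 * ex (Θ p) := funext fun p => hform p.1 p.2
    rw [this]
    exact (contDiff_const.sub (contDiff_const.mul
      (((contDiff_const.sub hσc).mul ((contDiff_II A₀.smooth).comp hΘs)).add
        (hσc.mul ((contDiff_II A₁.smooth).comp hΘs))))).add
      ((Complex.ofRealCLM.contDiff.comp contDiff_snd).mul (contDiff_ex.comp hΘs))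
  have hhom : IsHomotopy (curve Λ₀ w) (curve Λ₁ w) H := by
    refine ⟨hHs.contDiffOn, ?_, ?_, fun s _ => (hA s).isTable_curve w⟩
    · have : mix Λ₀ Λ₁ (σ 0) = Λ₀ := by
        ext φ; simp [mix, hσ, Real.smoothTransition.zero]
      simp only [hH, this]
    · have : mix Λ₀ Λ₁ (σ 1) = Λ₁ := by
        ext φ; simp [mix, hσ, Real.smoothTransition.one]
      simp only [hH, this]
  have hder : ∀ s q, HasDerivAt (fun s' => H s' q)
      (-Complex.I * (deriv σ s : ℝ) * (II Λ₁ (Θ (s, q)) - II Λ₀ (Θ (s, q)))) s := by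
    intro s q
    have hθd : DifferentiableAt ℝ (fun s' => Θ (s', q)) s :=
      ((hΘs.comp (contDiff_id.prodMk contDiff_const)).differentiable (by simp)) s
    have hθ := hθd.hasDerivAt
    set θ' := deriv (fun s' => Θ (s', q)) s
    have hσd : HasDerivAt (fun s' => (σ s' : ℂ)) ((deriv σ s : ℝ) : ℂ) s :=
      ((hσs.differentiable (by simp)) s).hasDerivAt.ofReal_comp
    have h0 := (hasDerivAt_II A₀.smooth.continuous (Θ (s, q))).scomp s hθ
    have h1 := (hasDerivAt_II A₁.smooth.continuous (Θ (s, q))).scomp s hθ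
    have h2 := (hasDerivAt_ex (Θ (s, q))).scomp s hθ
    have h3 := ((((hσd.const_sub 1).mul h0).add (hσd.mul h1)).const_mul Complex.I).const_sub w
    have h4 := h3.add (h2.const_mul (q : ℂ))
    have hq : (1 - (σ s : ℂ)) * Λ₀ (Θ (s, q)) + σ s * Λ₁ (Θ (s, q)) = q := by
      have := (hA s).apply_inv q
      unfold mix at this
      exact_mod_cast this
    have hfun : (fun s' => H s' q) = fun s' => w - Complex.I * ((1 - (σ s' : ℂ)) * II Λ₀ (Θ (s', q))
      + σ s' * II Λ₁ (Θ (s', q))) + q * ex (Θ (s', q)) := funext fun s' => hform s' q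
    rw [hfun]
    refine h4.congr_deriv ?_
    simp only [Complex.real_smul, Function.comp]
    linear_combination (-Complex.I * θ' * ex (Θ (s, q))) * hq
  unfold dB
  refine (iInf₂_le H hhom).trans ?_
  calc ∫⁻ s in Ioo (0 : ℝ) 1, ⨆ q : ℝ, ‖deriv (fun s' => H s' q) s‖ₑ
      ≤ ∫⁻ s in Ioo (0 : ℝ) 1, ENNReal.ofReal (M * D) := by
        refine setLIntegral_mono' measurableSet_Ioo fun s hs => iSup_le fun q => ?_
        rw [(hder s q).deriv, ← ofReal_norm]
        apply ENNReal.ofReal_le_ofReal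
        rw [norm_mul, norm_mul, norm_neg, Complex.norm_I, one_mul, Complex.norm_real,
          Real.norm_eq_abs]
        exact mul_le_mul (hM s ⟨hs.1.le, hs.2.le⟩) (hD _) (norm_nonneg _)
          ((abs_nonneg _).trans (hM s ⟨hs.1.le, hs.2.le⟩))
    _ = ENNReal.ofReal (M * D) := by simp

end Pool.Agent.Lib.MP_fd4af6_gt
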