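import Mathlib

/-! Smooth dependence of the inverse of a smooth family of increasing bijections of `ℝ`. -/

set_option autoImplicit false

open Set Filter Topology
open scoped ContDiff

namespace Pool.Agent.Lib.MP_fd4af6_gt

theorem contDiff_invFun_family {F : ℝ × ℝ → ℝ} (hF : ContDiff ℝ ∞ F)
    (hpos : ∀ s φ, 0 < deriv (fun x => F (s, x)) φ)
    (hsurj : ∀ s, Function.Surjective fun x => F (s, x)) :
    ContDiff ℝ ∞ (fun y : ℝ × ℝ => Function.invFun (fun x => F (y.1, x)) y.2) := by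
  set Φ : ℝ × ℝ → ℝ × ℝ := fun p => (p.1, F p) with hΦ
  have hΦs : ContDiff ℝ ∞ Φ := contDiff_fst.prodMk hF
  have hmono : ∀ s, StrictMono fun x => F (s, x) := fun s => strictMono_of_deriv_pos (hpos s)
  have hinj : Function.Injective Φ := by
    rintro ⟨s, x⟩ ⟨t, y⟩ h
    simp only [hΦ, Prod.mk.injEq] at h
    obtain ⟨rfl, h⟩ := h
    rw [(hmono s).injective h]
  set Ψ : ℝ × ℝ → ℝ × ℝ := fun y => (y.1, Function.invFun (fun x => F (y.1, x)) y.2) with hΨ
  have hright : ∀ y, Φ (Ψ y) = y := by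
    rintro ⟨s, q⟩
    simp only [hΦ, hΨ, Prod.mk.injEq, true_and]
    exact Function.rightInverse_invFun (hsurj s) q
  have key : ContDiff ℝ ∞ Ψ := by
    rw [contDiff_iff_contDiffAt]
    intro y
    set a := Ψ y with ha
    have hdF : HasFDerivAt F (fderiv ℝ F a) a :=
      ((hF.differentiable (by simp)) a).hasFDerivAt
    set A : ℝ × ℝ →L[ℝ] ℝ × ℝ := (ContinuousLinearMap.fst ℝ ℝ ℝ).prod (fderiv ℝ F a) with hA
    have hdΦ : HasFDerivAt Φ A a := (hasFDerivAt_fst).prodMk hdF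
    have hb : 0 < fderiv ℝ F a (0, 1) := by
      have h1 : HasDerivAt (fun x : ℝ => (a.1, x)) ((0 : ℝ), (1 : ℝ)) a.2 :=
        (hasDerivAt_const _ _).prodMk (hasDerivAt_id _)
      have h2 : HasDerivAt (fun x => F (a.1, x)) (fderiv ℝ F a (0, 1)) a.2 :=
        HasFDerivAt.comp_hasDerivAt (f := fun x : ℝ => (a.1, x)) a.2 hdF h1
      rw [← h2.deriv]; exact hpos _ _
    have hAinj : Function.Injective A := by
      rw [injective_iff_map_eq_zero]
      rintro ⟨u, v⟩ h
      simp only [hA, ContinuousLinearMap.prod_apply, ContinuousLinearMap.coe_fst',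
        Prod.mk_eq_zero] at h
      obtain ⟨rfl, h⟩ := h
      have : ((0 : ℝ), v) = v • ((0 : ℝ), (1 : ℝ)) := by simp
      rw [this, map_smul, smul_eq_mul] at h
      rcases mul_eq_zero.1 h with h | h
      · simp [h]
      · exact absurd h hb.ne'
    set E : (ℝ × ℝ) ≃L[ℝ] (ℝ × ℝ) :=
      (LinearEquiv.ofInjectiveEndo (A : ℝ × ℝ →ₗ[ℝ] ℝ × ℝ) hAinj).toContinuousLinearEquiv with hE
    have hEA : (E : ℝ × ℝ →L[ℝ] ℝ × ℝ) = A := by
      ext <;> simp [hE]
    have hd' : HasFDerivAt Φ (E : ℝ × ℝ →L[ℝ] ℝ × ℝ) a := hEA ▸ hdΦ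
    have hca : ContDiffAt ℝ ∞ Φ a := hΦs.contDiffAt
    have h1 := hca.to_localInverse hd' (by simp)
    have h2 := (hca.hasStrictFDerivAt' hd' (by simp)).eventually_right_inverse
    have hy : Φ a = y := hright y
    rw [hy] at h1 h2
    refine h1.congr_of_eventuallyEq ?_
    filter_upwards [h2] with z hz
    apply hinj
    rw [hright]
    exact hz.symm
  exact contDiff_snd.comp key

theorem contDiff_invFun {Λ : ℝ → ℝ} (hF : ContDiff ℝ ∞ Λ) (hpos : ∀ φ, 0 < deriv Λ φ)
    (hsurj : Function.Surjective Λ) : ContDiff ℝ ∞ (Function.invFun Λ) := by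
  have := contDiff_invFun_family (F := fun p => Λ p.2) (hF.comp contDiff_snd)
    (fun _ φ => hpos φ) (fun _ => hsurj)
  exact this.comp ((contDiff_const (c := (0 : ℝ))).prodMk contDiff_id)

end Pool.Agent.Lib.MP_fd4af6_gt
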