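import Pool.Agent.Lib.MP_fd4af6_gt.Tangent

/-! The involute identity for an inverse tangent-angle function. -/

set_option autoImplicit false

open Set Real MeasureTheory intervalIntegral

namespace Pool.Agent.Lib.MP_fd4af6_gt

/-- primitive of `e^{it} Λ(t)` -/
noncomputable def II (Λ : ℝ → ℝ) (φ : ℝ) : ℂ := ∫ t in (0 : ℝ)..φ, ex t * (Λ t : ℂ)

lemma ii_ex_mul {Λ : ℝ → ℝ} {a b : ℝ} (h : IntervalIntegrable Λ volume a b) :
    IntervalIntegrable (fun t => ex t * (Λ t : ℂ)) volume a b :=
  IntervalIntegrable.continuousOn_mul (f := fun t => (Λ t : ℂ)) ⟨h.1.ofReal, h.2.ofReal⟩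
    continuous_ex.continuousOn

lemma integral_I_ex (a b : ℝ) : ∫ t in a..b, Complex.I * ex t = ex b - ex a :=
  integral_eq_sub_of_hasDerivAt (fun x _ => hasDerivAt_ex x)
    ((continuous_const.mul continuous_ex).intervalIntegrable _ _)

namespace TanData

variable {c : ℝ → ℂ} {L : ℝ → ℝ} {κ : ℝ} (T : TanData c L κ)
include T

lemma ii (a b : ℝ) : IntervalIntegrable L volume a b := T.mono.intervalIntegrable

lemma step {a b : ℝ} (hab : a ≤ b) (hδ : b - a < κ) :
    ‖(c (L b) - L b * ex b + Complex.I * II L b) - (c (L a) - L a * ex a + Complex.I * II L a)‖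
      ≤ 2 * (b - a) * (L b - L a) := by
  have hm := T.mono hab
  have h1 := T.est a b (L a) (L b) hab hδ le_rfl hm le_rfl
  have h2 : II L b - II L a = ∫ t in a..b, ex t * (L t : ℂ) := by
    unfold II
    exact integral_interval_sub_left (ii_ex_mul (T.ii _ _)) (ii_ex_mul (T.ii _ _))
  have h3 : Complex.I * (∫ t in a..b, ex t * (L t : ℂ)) - L b * (ex b - ex a)
      = ∫ t in a..b, Complex.I * ex t * ((L t - L b : ℝ) : ℂ) := by
    rw [← integral_I_ex, ← intervalIntegral.integral_const_mul,
      ← intervalIntegral.integral_const_mul, ← intervalIntegral.integral_sub]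
    · congr 1; ext t; push_cast; ring
    · exact (ii_ex_mul (T.ii _ _)).const_mul _
    · exact ((continuous_const.mul continuous_ex).intervalIntegrable _ _).const_mul _
  have h4 : ‖∫ t in a..b, Complex.I * ex t * ((L t - L b : ℝ) : ℂ)‖ ≤ (L b - L a) * |b - a| := by
    apply intervalIntegral.norm_integral_le_of_norm_le_const
    intro t ht
    rw [uIoc_of_le hab] at ht
    rw [norm_mul, norm_mul, Complex.norm_I, norm_ex, one_mul, one_mul, Complex.norm_real,
      Real.norm_eq_abs, abs_sub_comm, abs_of_nonneg (sub_nonneg.2 (T.mono ht.2))]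
    linarith [T.mono ht.1.le]
  rw [abs_of_nonneg (sub_nonneg.2 hab)] at h4
  have h5 : (c (L b) - L b * ex b + Complex.I * II L b) - (c (L a) - L a * ex a + Complex.I * II L a)
      = (c (L b) - c (L a) - ((L b - L a : ℝ) : ℂ) * ex a) +
        ∫ t in a..b, Complex.I * ex t * ((L t - L b : ℝ) : ℂ) := by
    rw [← h3, ← h2]; push_cast; ring
  rw [h5]
  refine (norm_add_le _ _).trans ?_
  linarith

lemma const_of_le {a b : ℝ} (hab : a ≤ b) :
    c (L b) - L b * ex b + Complex.I * II L b = c (L a) - L a * ex a + Complex.I * II L a := by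
  set E : ℝ → ℂ := fun φ => c (L φ) - L φ * ex φ + Complex.I * II L φ with hE
  show E b = E a
  have hbound : ∀ n : ℕ, 0 < n → (b - a) / n < κ →
      ‖E b - E a‖ ≤ 2 * ((b - a) / n) * (L b - L a) := by
    intro n hn hκ
    have hn' : (0 : ℝ) < n := by exact_mod_cast hn
    set x : ℕ → ℝ := fun k => a + k * ((b - a) / n) with hx
    have hx0 : x 0 = a := by simp [hx]
    have hxn : x n = b := by simp only [hx]; field_simp; ring
    have hd : 0 ≤ (b - a) / n := div_nonneg (sub_nonneg.2 hab) hn'.le
    have hstep : ∀ k, x (k + 1) - x k = (b - a) / n := by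
      intro k; simp only [hx]; push_cast; ring
    calc ‖E b - E a‖ = ‖∑ k ∈ Finset.range n, (E (x (k + 1)) - E (x k))‖ := by
          rw [Finset.sum_range_sub (fun k => E (x k)), hx0, hxn]
      _ ≤ ∑ k ∈ Finset.range n, ‖E (x (k + 1)) - E (x k)‖ := norm_sum_le _ _
      _ ≤ ∑ k ∈ Finset.range n, 2 * ((b - a) / n) * (L (x (k + 1)) - L (x k)) := by
          refine Finset.sum_le_sum fun k _ => ?_
          have := T.step (a := x k) (b := x (k + 1)) (by linarith [hstep k])
            (by rw [hstep]; exact hκ)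
          rw [hstep] at this
          exact this
      _ = 2 * ((b - a) / n) * (L b - L a) := by
          rw [← Finset.mul_sum, Finset.sum_range_sub (fun k => L (x k)), hx0, hxn]
  have hlim : Filter.Tendsto (fun n : ℕ => (b - a) / n) Filter.atTop (nhds 0) :=
    tendsto_const_div_atTop_nhds_zero_nat _
  have hlim2 : Filter.Tendsto (fun n : ℕ => 2 * ((b - a) / n) * (L b - L a)) Filter.atTop
      (nhds 0) := by
    simpa using (hlim.const_mul 2).mul_const (L b - L a)
  have hev : ∀ᶠ n : ℕ in Filter.atTop, ‖E b - E a‖ ≤ 2 * ((b - a) / n) * (L b - L a) := by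
    filter_upwards [Filter.eventually_gt_atTop 0, hlim.eventually (gt_mem_nhds T.κpos)] with n h1 h2
    exact hbound n h1 h2
  have := ge_of_tendsto hlim2 hev
  exact sub_eq_zero.1 (norm_le_zero_iff.1 this)

/-- the involute identity -/
lemma involute (φ : ℝ) :
    c (L φ) - L φ * ex φ = (c (L 0) - L 0) - Complex.I * II L φ := by
  have h0 : II L 0 = 0 := by simp [II]
  have : c (L φ) - L φ * ex φ + Complex.I * II L φ
      = c (L 0) - L 0 * ex 0 + Complex.I * II L 0 := by
    rcases le_total 0 φ with h | h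
    · exact T.const_of_le h
    · exact (T.const_of_le h).symm
  rw [h0, ex_zero] at this
  linear_combination this

lemma closing (s : ℝ) : ∫ t in (0 : ℝ)..(2 * π), ex t * (L (t - s) : ℂ) = -Complex.I := by
  have h1 : ∫ t in (0 : ℝ)..(2 * π), ex t * (L (t - s) : ℂ)
      = ex s * ∫ t in (0 : ℝ)..(2 * π), ex (t - s) * (L (t - s) : ℂ) := by
    rw [← intervalIntegral.integral_const_mul]
    congr 1; ext t
    rw [← mul_assoc, ← ex_add]; simp
  rw [h1, intervalIntegral.integral_comp_sub_right (fun u => ex u * (L u : ℂ))]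
  have h2 : ∫ t in (0 - s)..(2 * π - s), ex t * (L t : ℂ) = II L (-s + 2 * π) - II L (-s) := by
    unfold II
    rw [integral_interval_sub_left (ii_ex_mul (T.ii _ _)) (ii_ex_mul (T.ii _ _))]
    congr 1 <;> ring
  have h3 := T.involute (-s + 2 * π)
  have h4 := T.involute (-s)
  rw [T.per, T.cper, ex_add_two_pi] at h3
  have h5 : Complex.I * (II L (-s + 2 * π) - II L (-s)) = ex (-s) := by
    push_cast at h3
    linear_combination h3 - h4
  have h6 := ex_neg_mul s
  rw [h2]
  have hI : Complex.I * Complex.I = -1 := Complex.I_mul_I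
  linear_combination (-Complex.I * ex s) * h5 - Complex.I * h6
    + (ex s * (II L (-s + 2 * π) - II L (-s))) * hI

end TanData

end Pool.Agent.Lib.MP_fd4af6_gt
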