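import Pool.Agent.Lib.MP_fd4af6_gt.Geo

/-! The exact value of the geometric distance. -/

set_option autoImplicit false

open Set Real MeasureTheory intervalIntegral Filter Topology
open scoped ContDiff ENNReal ComplexConjugate

namespace Pool.Agent.Lib.MP_fd4af6_gt

lemma lift_unique {a b : ℝ → ℝ} (ha : Continuous a) (hb : Continuous b)
    (h : ∀ q, ex (a q) = ex (b q)) {q₀ : ℝ} (h0 : a q₀ = b q₀) : a = b :=
  Circle.isCoveringMap_exp.eq_of_comp_eq ha hb
    (funext fun q => Circle.ext (by simpa [ex] using h q)) q₀ h0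

lemma exists_smooth_arg {v : ℝ × ℝ → ℂ} (hv : ContDiff ℝ ∞ v) (h1 : ∀ p, ‖v p‖ = 1) :
    ∃ θ : ℝ × ℝ → ℝ, ContDiff ℝ ∞ θ ∧ ∀ p, v p = ex (θ p) := by
  let f : C(ℝ × ℝ, Circle) := ⟨fun p => ⟨v p, mem_sphere_zero_iff_norm.2 (h1 p)⟩,
    hv.continuous.subtype_mk fun p => mem_sphere_zero_iff_norm.2 (h1 p)⟩
  obtain ⟨e₀, he⟩ := Circle.exp_surjective (f 0)
  obtain ⟨F, ⟨-, hF⟩, -⟩ := Circle.isCoveringMap_exp.existsUnique_continuousMap_lifts f 0 e₀ he
  have hex : ∀ p, v p = ex (F p) := fun p => by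
    have := congrArg (fun z : Circle => (z : ℂ)) (congrFun hF p)
    exact this.symm.trans (Circle.coe_exp _)
  refine ⟨F, contDiff_iff_contDiffAt.2 fun p => ?_, hex⟩
  have h2 : ContDiffAt ℝ ∞ (fun x => F p + (Complex.log (v x * ex (-F p))).im) p := by
    have h3 : v p * ex (-F p) ∈ Complex.slitPlane := by
      rw [hex, mul_comm, ex_neg_mul]
      exact Complex.one_mem_slitPlane
    have h4 : ContDiffAt ℝ ∞ Complex.log (v p * ex (-F p)) :=
      (Complex.contDiffAt_log h3).restrict_scalars ℝ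
    have h5 : ContDiffAt ℝ ∞ (fun x => Complex.log (v x * ex (-F p))) p :=
      h4.comp p (f := fun x => v x * ex (-F p)) (hv.mul contDiff_const).contDiffAt
    exact contDiffAt_const.add (Complex.imCLM.contDiff.contDiffAt.comp p h5)
  refine h2.congr_of_eventuallyEq ?_
  filter_upwards [(F.continuous.tendsto p).eventually (Metric.ball_mem_nhds (F p) pi_pos)]
    with x hx
  have h3 := abs_lt.1 (show |F x - F p| < π from hx)
  rw [hex, ← ex_add, ex, Complex.log_exp (by simp; linarith [h3.1]) (by simp; linarith [h3.2])]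
  simp

theorem dB_le_of_match {α β : ℝ → ℂ} (hα : IsTable α) (hβ : IsTable β) {h : ℝ → ℝ}
    (hc : Continuous h) (hm : ∀ q, deriv β (h q) = deriv α q) {D : ℝ}
    (hD : ∀ q, ‖β (h q) - α q - ((h q - q : ℝ) : ℂ) * deriv α q‖ ≤ D) :
    dB α β ≤ ENNReal.ofReal D := by
  obtain ⟨a, ha⟩ := (Complex.norm_eq_one_iff _).1 (hα.2.2.1 0)
  obtain ⟨Λ₀, w₀, A₀, rfl, -⟩ := table_rep hα ha.symm
  have d0 : ∀ q, deriv (curve Λ₀ w₀) q = ex (Function.invFun Λ₀ q) := fun q =>
    (A₀.hasDerivAt_curve w₀ q).deriv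
  obtain ⟨Λ₁, w₁, A₁, rfl, h1⟩ := table_rep hβ ((hm 0).trans (d0 0))
  have h2 : (fun q => Function.invFun Λ₁ (h q)) = Function.invFun Λ₀ :=
    lift_unique (A₁.inv_smooth.continuous.comp hc) A₀.inv_smooth.continuous
      (fun q => by rw [← d0, ← hm, (A₁.hasDerivAt_curve w₁ (h q)).deriv])
      (q₀ := 0) (by rw [← h1, A₁.inv_apply])
  refine dB_le_EE A₀ A₁ w₀ w₁ fun φ => le_trans (le_of_eq ?_) (hD (Λ₀ φ))
  have h3 : Function.invFun Λ₁ (h (Λ₀ φ)) = φ := (congrFun h2 _).trans (A₀.inv_apply φ)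
  rw [d0]
  simp only [curve, EE, h3, A₀.inv_apply]
  push_cast
  congr 1
  ring

theorem exists_match {α β : ℝ → ℂ} {H : ℝ → ℝ → ℂ} (hH : IsHomotopy α β H) :
    ∃ h : ℝ → ℝ, (Continuous h ∧ ∀ q, deriv β (h q) = deriv α q) ∧
      ∀ q, ‖β (h q) - α q - ((h q - q : ℝ) : ℂ) * deriv α q‖ₑ ≤
        ∫⁻ s in Ioo (0 : ℝ) 1, ⨆ q : ℝ, ‖deriv (fun s' => H s' q) s‖ₑ := by
  obtain ⟨hs, h0, h1, hT⟩ := hH
  set σ := Real.smoothTransition with hσ
  have hσs : ContDiff ℝ ∞ σ := Real.smoothTransition.contDiff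
  have hσI : ∀ s, σ s ∈ Icc (0 : ℝ) 1 := fun s =>
    ⟨Real.smoothTransition.nonneg s, Real.smoothTransition.le_one s⟩
  have hσd : ∀ s, HasDerivAt σ (deriv σ s) s := fun s =>
    (hσs.differentiable (by simp) s).hasDerivAt
  set G : ℝ × ℝ → ℂ := fun p => H (σ p.1) p.2 with hG
  have hGs : ContDiff ℝ ∞ G :=
    hs.comp_contDiff ((hσs.comp contDiff_fst).prodMk contDiff_snd) fun p => ⟨hσI _, mem_univ _⟩
  have hGd : ∀ p, HasFDerivAt G (fderiv ℝ G p) p := fun p =>
    (hGs.differentiable (by simp) p).hasFDerivAt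
  have hv : ∀ s q, deriv (H (σ s)) q = fderiv ℝ G (s, q) (0, 1) := fun s q =>
    ((hGd (s, q)).comp_hasDerivAt q ((hasDerivAt_const q s).prodMk (hasDerivAt_id q))).deriv
  obtain ⟨θ, hθ, hex⟩ := exists_smooth_arg (v := fun p => fderiv ℝ G p (0, 1))
    ((hGs.fderiv_right (m := ∞) (by simp)).clm_apply contDiff_const)
    fun p => by rw [← hv]; exact (hT _ (hσI _)).2.2.1 _
  have hrep : ∀ s, ∃ Λ, Adm Λ ∧ (fun x => θ (s, x)) = Function.invFun Λ := fun s => by
    obtain ⟨Λ, w, A, e, h2⟩ := table_rep (hT _ (hσI s)) ((hv s 0).trans (hex (s, 0)))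
    refine ⟨Λ, A, lift_unique (hθ.continuous.comp (by fun_prop)) A.inv_smooth.continuous
      (fun q => ?_) (q₀ := 0) ?_⟩
    · rw [← hex, ← hv, e, (A.hasDerivAt_curve w q).deriv]
    · have := A.inv_apply (θ (s, 0))
      rw [h2] at this
      exact this.symm
  have hsurj : ∀ s, Function.Surjective fun x => θ (s, x) := fun s => by
    obtain ⟨Λ, A, e⟩ := hrep s
    exact e ▸ fun φ => ⟨Λ φ, A.inv_apply φ⟩
  have hinj : ∀ s, Function.Injective fun x => θ (s, x) := fun s => by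
    obtain ⟨Λ, A, e⟩ := hrep s
    exact e ▸ A.inv_strictMono.injective
  set L : ℝ × ℝ → ℝ := fun y => Function.invFun (fun x => θ (y.1, x)) y.2 with hL
  have hLs : ContDiff ℝ ∞ L := contDiff_invFun_family hθ (fun s φ => by
    obtain ⟨Λ, A, e⟩ := hrep s
    exact e ▸ A.inv_dpos φ) hsurj
  have r1 : ∀ s φ, θ (s, L (s, φ)) = φ := fun s φ => Function.rightInverse_invFun (hsurj s) φ
  have r2 : ∀ s q, L (s, θ (s, q)) = q := fun s q => Function.leftInverse_invFun (hinj s) q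
  have e0 : H (σ 0) = α := by rw [hσ, Real.smoothTransition.zero, h0]
  have e1 : H (σ 1) = β := by rw [hσ, Real.smoothTransition.one, h1]
  have dα : ∀ q, deriv α q = ex (θ (0, q)) := fun q => by rw [← e0, hv, hex]
  refine ⟨fun q => L (1, θ (0, q)), ⟨hLs.continuous.comp
    (continuous_const.prodMk (hθ.continuous.comp (by fun_prop))), fun q => by
      rw [← e1, hv, hex, r1, dα]⟩, fun q => ?_⟩
  set φ := θ (0, q) with hφ
  have hl : ContDiff ℝ ∞ fun s => L (s, φ) := hLs.comp (contDiff_id.prodMk contDiff_const)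
  set g : ℝ → ℂ := fun s => G (s, L (s, φ)) - L (s, φ) * ex φ with hg
  have hgs : ContDiff ℝ ∞ g := (hGs.comp (contDiff_id.prodMk hl)).sub
    ((Complex.ofRealCLM.contDiff.comp hl).mul contDiff_const)
  have hgd : ∀ s ∈ Ioo (0 : ℝ) 1,
      deriv g s = deriv σ s • deriv (fun s' => H s' (L (s, φ))) (σ s) := fun s hs' => by
    have hld := (hl.differentiable (by simp) s).hasDerivAt
    set l' := deriv (fun s => L (s, φ)) s
    have a1 := ((hGd (s, L (s, φ))).comp_hasDerivAt s ((hasDerivAt_id s).prodMk hld)).sub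
      (hld.ofReal_comp.mul_const (ex φ))
    have a2 := (hGd (s, L (s, φ))).comp_hasDerivAt s
      ((hasDerivAt_id s).prodMk (hasDerivAt_const s (L (s, φ))))
    have a3 : DifferentiableAt ℝ (fun s' => H s' (L (s, φ))) (σ s) := by
      have a4 : ContDiffOn ℝ ∞ (fun s' => H s' (L (s, φ))) (Icc 0 1) :=
        hs.comp (contDiff_id.prodMk contDiff_const).contDiffOn fun s hs => ⟨hs, mem_univ _⟩
      exact (a4.contDiffAt (Icc_mem_nhds (Real.smoothTransition.pos_of_pos hs'.1)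
        (Real.smoothTransition.lt_one_of_lt_one hs'.2))).differentiableAt (by simp)
    have a5 := a2.unique (a3.hasDerivAt.scomp s (hσd s))
    have a6 : ((1 : ℝ), l') = ((1 : ℝ), (0 : ℝ)) + l' • ((0 : ℝ), (1 : ℝ)) := by simp
    rw [a6, map_add, map_smul, hex, r1, a5, Complex.real_smul (x := l'), add_sub_cancel_right] at a1
    exact a1.deriv
  have h2 := enorm_sub_le_lintegral_deriv_of_contDiffOn_Icc
    (hgs.of_le (by simp)).contDiffOn zero_le_one
  have h3 : g 1 - g 0 = β (L (1, φ)) - α q - ((L (1, φ) - q : ℝ) : ℂ) * deriv α q := by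
    simp only [hg, hG, e0, e1, dα, hφ, r2]
    push_cast
    ring
  rw [h3, ← restrict_Ioo_eq_restrict_Icc] at h2
  refine h2.trans (le_trans ?_ (lintegral_mono_set (s := σ '' Ioo 0 1) ?_))
  · rw [lintegral_image_eq_lintegral_deriv_mul_of_monotoneOn measurableSet_Ioo
      (fun s _ => (hσd s).hasDerivWithinAt) (Real.smoothTransition.monotone.monotoneOn _)]
    refine setLIntegral_mono' measurableSet_Ioo fun s hs' => ?_
    rw [hgd s hs', enorm_smul, Real.enorm_eq_ofReal Real.smoothTransition.monotone.deriv_nonneg]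
    gcongr
    exact le_iSup (fun q => ‖deriv (fun s' => H s' q) (σ s)‖ₑ) _
  · rintro _ ⟨s, hs', rfl⟩
    exact ⟨Real.smoothTransition.pos_of_pos hs'.1, Real.smoothTransition.lt_one_of_lt_one hs'.2⟩

end Pool.Agent.Lib.MP_fd4af6_gt
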