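import Pool.Agent.Lib.MP_fd4af6_gt.Homotopy

/-! Mollification of an inverse tangent-angle function. -/

set_option autoImplicit false

open Set Real MeasureTheory intervalIntegral Filter Topology
open scoped ContDiff ENNReal Convolution

namespace Pool.Agent.Lib.MP_fd4af6_gt

namespace TanData

variable {c : ℝ → ℂ} {L : ℝ → ℝ} {κ : ℝ} (T : TanData c L κ)
include T

lemma exists_moll {ε : ℝ} (hε : 0 < ε) : ∃ m : ℝ → ℝ, ContDiff ℝ ∞ m ∧ Monotone m ∧
    (∀ φ, m (φ + 2 * π) = m φ + 1) ∧ II m (2 * π) = -Complex.I ∧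
    ∀ φ, L (φ - ε) ≤ m φ ∧ m φ ≤ L (φ + ε) := by
  let b : ContDiffBump (0 : ℝ) := ⟨ε / 2, ε, by linarith, by linarith⟩
  set k : ℝ → ℝ := b.normed volume with hk
  have kcont : Continuous k := b.continuous_normed
  have ksupp : HasCompactSupport k := b.hasCompactSupport_normed
  have knn : ∀ s, 0 ≤ k s := b.nonneg_normed
  have kint : ∫ s, k s = 1 := b.integral_normed
  have kii : Integrable k := b.integrable_normed
  have kzero : ∀ s, k s ≠ 0 → |s| < ε := by
    intro s hs
    have : s ∈ Function.support (b.normed volume) := hs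
    rw [b.support_normed_eq] at this
    simpa using this
  have hint : ∀ φ, Integrable fun s => k s * L (φ - s) := by
    intro φ
    have : Antitone fun s => L (φ - s) := fun a b hab => T.mono (by linarith)
    exact this.locallyIntegrable.integrable_smul_left_of_hasCompactSupport kcont ksupp
  have hconst : ∀ a : ℝ, ∫ s, k s * a = a := by
    intro a; rw [MeasureTheory.integral_mul_const, kint, one_mul]
  set m : ℝ → ℝ := fun φ => ∫ s, k s * L (φ - s) with hm
  have hlow : ∀ φ s, k s * L (φ - ε) ≤ k s * L (φ - s) := by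
    intro φ s
    by_cases h : k s = 0
    · simp [h]
    · exact mul_le_mul_of_nonneg_left (T.mono (by linarith [(abs_lt.1 (kzero s h)).2])) (knn s)
  have hup : ∀ φ s, k s * L (φ - s) ≤ k s * L (φ + ε) := by
    intro φ s
    by_cases h : k s = 0
    · simp [h]
    · exact mul_le_mul_of_nonneg_left (T.mono (by linarith [(abs_lt.1 (kzero s h)).1])) (knn s)
  refine ⟨m, ?_, ?_, ?_, ?_, ?_⟩
  · exact ksupp.contDiff_convolution_left (ContinuousLinearMap.mul ℝ ℝ) b.contDiff_normed
      T.mono.locallyIntegrable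
  · intro x y hxy
    exact integral_mono (hint x) (hint y) fun s =>
      mul_le_mul_of_nonneg_left (T.mono (by linarith)) (knn s)
  · intro φ
    simp only [hm]
    rw [← hconst 1, ← MeasureTheory.integral_add (hint φ) (kii.mul_const 1)]
    congr 1; ext s
    rw [show φ + 2 * π - s = φ - s + 2 * π by ring, T.per]; ring
  · have h1 : ∀ t, ex t * (m t : ℂ) = ∫ s, ex t * ((k s * L (t - s) : ℝ) : ℂ) := by
      intro t
      rw [MeasureTheory.integral_const_mul, integral_complex_ofReal]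
    unfold II
    simp only [h1]
    rw [intervalIntegral_integral_swap]
    · have h2 : ∀ s, ∫ t in (0 : ℝ)..(2 * π), ex t * ((k s * L (t - s) : ℝ) : ℂ)
          = (k s : ℂ) * (-Complex.I) := by
        intro s
        rw [← T.closing s, ← intervalIntegral.integral_const_mul]
        congr 1; ext t; push_cast; ring
      simp only [h2]
      rw [MeasureTheory.integral_mul_const, integral_complex_ofReal, kint]; simp
    · have hLm : Measurable L := T.mono.measurable
      have hmeas : Measurable (Function.uncurry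
          fun t s : ℝ => ex t * ((k s * L (t - s) : ℝ) : ℂ)) :=
        (continuous_ex.measurable.comp measurable_fst).mul (Complex.measurable_ofReal.comp
          ((kcont.measurable.comp measurable_snd).mul
            (hLm.comp (measurable_fst.sub measurable_snd))))
      set B := |L (0 - ε)| + |L (2 * π + ε)| with hB
      have hfin : IsFiniteMeasure (volume.restrict (uIoc (0 : ℝ) (2 * π))) := by
        rw [uIoc_of_le (by positivity)]; infer_instance
      have hg : Integrable (fun p : ℝ × ℝ => B * k p.2)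
          ((volume.restrict (uIoc (0 : ℝ) (2 * π))).prod volume) :=
        (integrable_const B).mul_prod kii
      refine hg.mono' hmeas.aestronglyMeasurable ?_
      rw [Measure.restrict_prod_eq_prod_univ]
      refine ae_restrict_of_forall_mem (measurableSet_uIoc.prod MeasurableSet.univ) ?_
      rintro ⟨t, s⟩ ⟨ht, -⟩
      rw [uIoc_of_le (by positivity)] at ht
      simp only [Function.uncurry, norm_mul, norm_ex, one_mul, Complex.norm_real, Real.norm_eq_abs]
      by_cases h : k s = 0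
      · simp [h]
      · rw [abs_of_nonneg (knn s), mul_comm]
        apply mul_le_mul_of_nonneg_right _ (knn s)
        have h3 := abs_lt.1 (kzero s h)
        have a1 : L (0 - ε) ≤ L (t - s) := T.mono (by linarith [ht.1])
        have a2 : L (t - s) ≤ L (2 * π + ε) := T.mono (by linarith [ht.2])
        have a3 := neg_abs_le (L (0 - ε))
        have a4 := le_abs_self (L (2 * π + ε))
        have a5 := abs_nonneg (L (0 - ε))
        have a6 := abs_nonneg (L (2 * π + ε))
        exact abs_le.2 ⟨by linarith, by linarith⟩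
  · intro φ
    constructor
    · rw [← hconst (L (φ - ε))]
      exact integral_mono (kii.mul_const _) (hint φ) (hlow φ)
    · rw [← hconst (L (φ + ε))]
      exact integral_mono (hint φ) (kii.mul_const _) (hup φ)

lemma per_sub : Function.Periodic (fun φ => L φ - φ / (2 * π)) (2 * π) := by
  intro φ; simp only [T.per]; field_simp; ring

lemma exists_bound : ∃ B : ℝ, 0 ≤ B ∧ ∀ φ, |L φ - φ / (2 * π)| ≤ B := by
  refine ⟨|L 0| + 1, by positivity, fun φ => ?_⟩
  obtain ⟨y, hy, he⟩ := T.per_sub.exists_mem_Ico₀ (by positivity) φ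
  have he' : L φ - φ / (2 * π) = L y - y / (2 * π) := he
  rw [he']
  have h1 := T.mono hy.1
  have h2 := T.mono hy.2.le
  have h3 := T.per 0
  rw [zero_add] at h3
  have h4 : 0 ≤ y / (2 * π) := div_nonneg hy.1 (by positivity)
  have h5 : y / (2 * π) ≤ 1 := (div_le_one (by positivity)).2 hy.2.le
  have h6 := neg_abs_le (L 0)
  have h7 := le_abs_self (L 0)
  exact abs_le.2 ⟨by linarith, by linarith⟩

omit T in
lemma II_lin : II (fun φ => φ / (2 * π)) (2 * π) = -Complex.I := by
  have hπ : (π : ℂ) ≠ 0 := by exact_mod_cast pi_ne_zero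
  have hI : Complex.I * Complex.I = -1 := Complex.I_mul_I
  have hd : ∀ t : ℝ, HasDerivAt (fun t : ℝ => ((1 - Complex.I * t) * ex t) / (2 * π))
      (ex t * ((t / (2 * π) : ℝ) : ℂ)) t := by
    intro t
    have h1 : HasDerivAt (fun t : ℝ => (t : ℂ)) 1 t := Complex.ofRealCLM.hasDerivAt
    refine ((((h1.const_mul Complex.I).const_sub 1).mul (hasDerivAt_ex t)).div_const
      (2 * π : ℂ)).congr_deriv ?_
    push_cast
    field_simp
    linear_combination (-t * ex t) * hI
  unfold II
  rw [integral_eq_sub_of_hasDerivAt (fun x _ => hd x)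
    (ii_ex_mul ((continuous_id.div_const _).intervalIntegrable _ _)), ex_two_pi, ex_zero]
  push_cast
  field_simp
  ring

/-- smooth strictly increasing approximation, sandwiched between shifts of `L` -/
lemma exists_adm : ∃ B : ℝ, 0 ≤ B ∧ ∀ ε : ℝ, 0 < ε → ε ≤ 1 → ∃ Λ : ℝ → ℝ, Adm Λ ∧
    ∀ φ, L (φ - ε) - ε * B ≤ Λ φ ∧ Λ φ ≤ L (φ + ε) + ε * B := by
  obtain ⟨B, hB0, hB⟩ := T.exists_bound
  refine ⟨B + 1, by positivity, fun ε hε hε1 => ?_⟩
  obtain ⟨m, hms, hmm, hmp, hmc, hsand⟩ := T.exists_moll hε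
  have hlin : ContDiff ℝ ∞ (fun φ : ℝ => φ / (2 * π)) := contDiff_id.div_const _
  refine ⟨mix m (fun φ => φ / (2 * π)) ε, ⟨?_, ?_, ?_, ?_⟩, ?_⟩
  · exact (contDiff_const.mul hms).add (contDiff_const.mul hlin)
  · intro φ
    have h1 : HasDerivAt m (deriv m φ) φ := (hms.differentiable (by simp) φ).hasDerivAt
    have h2 : HasDerivAt (fun φ : ℝ => φ / (2 * π)) (1 / (2 * π)) φ :=
      (hasDerivAt_id φ).div_const _
    have h3 : HasDerivAt (mix m (fun φ => φ / (2 * π)) ε)
        ((1 - ε) * deriv m φ + ε * (1 / (2 * π))) φ :=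
      (h1.const_mul (1 - ε)).add (h2.const_mul ε)
    rw [h3.deriv]
    have := mul_nonneg (sub_nonneg.2 hε1) (hmm.deriv_nonneg (x := φ))
    have : 0 < ε * (1 / (2 * π)) := by positivity
    linarith
  · intro φ
    simp only [mix, hmp]; field_simp; ring
  · rw [II_mix hms.continuous hlin.continuous, hmc, II_lin]; ring
  · intro φ
    obtain ⟨h1, h2⟩ := hsand φ
    have a1 := abs_le.1 (hB (φ - ε))
    have a2 := abs_le.1 (hB (φ + ε))
    have hp : 0 < 2 * π := by positivity
    have e1 : (φ - ε) / (2 * π) = φ / (2 * π) - ε / (2 * π) := by ring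
    have e2 : (φ + ε) / (2 * π) = φ / (2 * π) + ε / (2 * π) := by ring
    have e3 : 0 ≤ ε / (2 * π) := by positivity
    unfold mix
    constructor
    · nlinarith [mul_le_mul_of_nonneg_left h1 (sub_nonneg.2 hε1)]
    · nlinarith [mul_le_mul_of_nonneg_left h2 (sub_nonneg.2 hε1)]

lemma integral_shift (ε : ℝ) : ∫ t in (0 : ℝ)..(2 * π), (L (t + ε) - L (t - ε)) = 2 * ε := by
  have hi1 : IntervalIntegrable (fun t => L (t + ε)) volume 0 (2 * π) :=
    Monotone.intervalIntegrable (fun a b h => T.mono (by linarith))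
  have hi2 : IntervalIntegrable (fun t => L (t - ε)) volume 0 (2 * π) :=
    Monotone.intervalIntegrable (fun a b h => T.mono (by linarith))
  rw [intervalIntegral.integral_sub hi1 hi2, intervalIntegral.integral_comp_add_right,
    intervalIntegral.integral_comp_sub_right]
  have h1 : ∫ t in (0 + ε)..(2 * π + ε), L t
      = (∫ t in (0 + ε)..(-ε + 2 * π), L t) + ∫ t in (-ε + 2 * π)..(ε + 2 * π), L t := by
    rw [integral_add_adjacent_intervals (T.ii _ _) (T.ii _ _), add_comm ε]
  have h2 : ∫ t in (0 - ε)..(2 * π - ε), L t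
      = (∫ t in (-ε)..ε, L t) + ∫ t in (0 + ε)..(-ε + 2 * π), L t := by
    rw [zero_add, integral_add_adjacent_intervals (T.ii _ _) (T.ii _ _)]
    congr 1 <;> ring
  have h3 : ∫ t in (-ε + 2 * π)..(ε + 2 * π), L t = (∫ t in (-ε)..ε, L t) + 2 * ε := by
    rw [← intervalIntegral.integral_comp_add_right]
    simp only [T.per]
    rw [intervalIntegral.integral_add (T.ii _ _) intervalIntegrable_const]
    simp; ring
  rw [h1, h2, h3]; ring

lemma II_close {Λ : ℝ → ℝ} (A : Adm Λ) {ε B : ℝ} (hε : 0 ≤ ε) (hB : 0 ≤ B)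
    (hs : ∀ φ, L (φ - ε) - ε * B ≤ Λ φ ∧ Λ φ ≤ L (φ + ε) + ε * B) (φ : ℝ) :
    ‖II Λ φ - II L φ‖ ≤ ε * (2 + 2 * π * B) := by
  have hΛi : ∀ a b, IntervalIntegrable Λ volume a b :=
    fun a b => A.smooth.continuous.intervalIntegrable a b
  set g : ℝ → ℂ := fun t => ex t * (Λ t : ℂ) - ex t * (L t : ℂ) with hg
  have hgi : ∀ a b, IntervalIntegrable g volume a b :=
    fun a b => (ii_ex_mul (hΛi a b)).sub (ii_ex_mul (T.ii a b))
  have hform : ∀ x, II Λ x - II L x = ∫ t in (0 : ℝ)..x, g t := by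
    intro x
    unfold II
    rw [← intervalIntegral.integral_sub (ii_ex_mul (hΛi _ _)) (ii_ex_mul (T.ii _ _))]
  have hgper : Function.Periodic g (2 * π) := by
    intro t; simp only [hg, A.per, T.per, ex_add_two_pi]; push_cast; ring
  have hzero : ∫ t in (0 : ℝ)..(2 * π), g t = 0 := by
    rw [← hform, A.closing]
    have := T.closing 0
    simp only [sub_zero] at this
    unfold II
    rw [this, sub_self]
  have hper : Function.Periodic (fun x => ∫ t in (0 : ℝ)..x, g t) (2 * π) := by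
    intro x
    show ∫ t in (0 : ℝ)..(x + 2 * π), g t = ∫ t in (0 : ℝ)..x, g t
    rw [← integral_add_adjacent_intervals (hgi 0 x) (hgi x (x + 2 * π)),
      hgper.intervalIntegral_add_eq x 0, zero_add, hzero, add_zero]
  obtain ⟨y, hy, he⟩ := hper.exists_mem_Ico₀ (by positivity) φ
  have he' : ∫ t in (0 : ℝ)..φ, g t = ∫ t in (0 : ℝ)..y, g t := he
  rw [hform, he']
  have hi1 : ∀ a b, IntervalIntegrable (fun t => L (t + ε) - L (t - ε)) volume a b := fun a b =>
    (Monotone.intervalIntegrable (u := fun t => L (t + ε)) (fun a b h => T.mono (by linarith))).sub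
    (Monotone.intervalIntegrable (u := fun t => L (t - ε)) (fun a b h => T.mono (by linarith)))
  have hi2 : ∀ a b, IntervalIntegrable (fun t => (L (t + ε) - L (t - ε)) + ε * B) volume a b :=
    fun a b => (hi1 a b).add intervalIntegrable_const
  have hpt : ∀ t, ‖g t‖ ≤ (L (t + ε) - L (t - ε)) + ε * B := by
    intro t
    have : g t = ex t * ((Λ t - L t : ℝ) : ℂ) := by simp only [hg]; push_cast; ring
    rw [this, norm_mul, norm_ex, one_mul, Complex.norm_real, Real.norm_eq_abs]
    obtain ⟨h1, h2⟩ := hs t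
    have a1 : L (t - ε) ≤ L t := T.mono (by linarith)
    have a2 : L t ≤ L (t + ε) := T.mono (by linarith)
    exact abs_le.2 ⟨by linarith, by linarith⟩
  calc ‖∫ t in (0 : ℝ)..y, g t‖ ≤ ∫ t in (0 : ℝ)..y, ((L (t + ε) - L (t - ε)) + ε * B) :=
        intervalIntegral.norm_integral_le_of_norm_le hy.1 (Eventually.of_forall fun t _ => hpt t)
          (hi2 _ _)
    _ ≤ ∫ t in (0 : ℝ)..(2 * π), ((L (t + ε) - L (t - ε)) + ε * B) := by
        apply intervalIntegral.integral_mono_interval le_rfl hy.1 hy.2.le _ (hi2 _ _)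
        exact Eventually.of_forall fun t => (norm_nonneg _).trans (hpt t)
    _ = ε * (2 + 2 * π * B) := by
        rw [intervalIntegral.integral_add (hi1 _ _) intervalIntegrable_const, T.integral_shift]
        simp; ring

lemma est' {φ₁ φ₂ q r : ℝ} (h : φ₁ ≤ φ₂) (hδ : φ₂ - φ₁ < κ) (hq : q ∈ Icc (L φ₁) (L φ₂))
    (hr : r ∈ Icc (L φ₁) (L φ₂)) :
    ‖c r - c q - ((r - q : ℝ) : ℂ) * ex φ₁‖ ≤ (φ₂ - φ₁) * |r - q| := by
  rcases le_total q r with h' | h'
  · rw [abs_of_nonneg (sub_nonneg.2 h')]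
    exact T.est _ _ _ _ h hδ hq.1 h' hr.2
  · rw [abs_sub_comm, abs_of_nonneg (sub_nonneg.2 h'), ← norm_neg]
    have := T.est _ _ _ _ h hδ hr.1 h' hq.2
    refine le_of_eq_of_le ?_ this
    congr 1; push_cast; ring

lemma curve_close {Λ : ℝ → ℝ} (A : Adm Λ) {ε B : ℝ} (hε : 0 ≤ ε) (hε1 : ε ≤ 1) (hκ : 2 * ε < κ)
    (hB : 0 ≤ B) (hs : ∀ φ, L (φ - ε) - ε * B ≤ Λ φ ∧ Λ φ ≤ L (φ + ε) + ε * B) (q : ℝ) :
    ‖curve Λ (c (L 0) - L 0) q - c q‖ ≤ ε * (5 + 2 * π * B + 2 * B) := by
  set φ := Function.invFun Λ q with hφ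
  have hq : Λ φ = q := A.apply_inv q
  obtain ⟨h1, h2⟩ := hs φ
  rw [hq] at h1 h2
  have m1 : L (φ - ε) ≤ L φ := T.mono (by linarith)
  have m2 : L φ ≤ L (φ + ε) := T.mono (by linarith)
  have m3 : L (φ + ε) ≤ L (φ - ε) + 1 := by
    rw [← T.per]; exact T.mono (by linarith [pi_gt_three])
  have hεB : 0 ≤ ε * B := mul_nonneg hε hB
  obtain ⟨q', hq', hqq'⟩ : ∃ q' ∈ Icc (L (φ - ε)) (L (φ + ε)), |q - q'| ≤ ε * B := by
    rcases le_total q (L (φ - ε)) with h | h
    · exact ⟨_, ⟨le_rfl, m1.trans m2⟩, abs_le.2 ⟨by linarith, by linarith⟩⟩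
    rcases le_total q (L (φ + ε)) with h' | h'
    · exact ⟨q, ⟨h, h'⟩, by simpa using hεB⟩
    · exact ⟨_, ⟨m1.trans m2, le_rfl⟩, abs_le.2 ⟨by linarith, by linarith⟩⟩
  have e1 := T.est' (φ₁ := φ - ε) (φ₂ := φ + ε) (q := L φ) (r := q') (by linarith) (by linarith)
    ⟨m1, m2⟩ hq'
  have e2 : |q' - L φ| ≤ 1 := abs_le.2 ⟨by linarith [hq'.1], by linarith [hq'.2]⟩
  have e3 := T.II_close A hε hB hs φ
  have e4 := T.lip q' q
  have e5 := norm_ex_sub_ex φ (φ - ε)
  rw [sub_sub_cancel, abs_of_nonneg hε] at e5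
  have e6 := T.involute φ
  have hdec : curve Λ (c (L 0) - L 0) q - c q
      = -Complex.I * (II Λ φ - II L φ) - (c q' - c (L φ) - ((q' - L φ : ℝ) : ℂ) * ex (φ - ε))
        + ((q' - L φ : ℝ) : ℂ) * (ex φ - ex (φ - ε)) + ((q - q' : ℝ) : ℂ) * ex φ
        - (c q - c q') := by
    unfold curve
    rw [← hφ]
    push_cast
    linear_combination -e6
  rw [hdec]
  have n1 : ‖-Complex.I * (II Λ φ - II L φ)‖ ≤ ε * (2 + 2 * π * B) := by
    rw [norm_mul, norm_neg, Complex.norm_I, one_mul]; exact e3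
  have n2 : ‖c q' - c (L φ) - ((q' - L φ : ℝ) : ℂ) * ex (φ - ε)‖ ≤ 2 * ε := by
    refine e1.trans ?_
    nlinarith [abs_nonneg (q' - L φ)]
  have n3 : ‖((q' - L φ : ℝ) : ℂ) * (ex φ - ex (φ - ε))‖ ≤ ε := by
    rw [norm_mul, Complex.norm_real, Real.norm_eq_abs]
    nlinarith [abs_nonneg (q' - L φ), norm_nonneg (ex φ - ex (φ - ε))]
  have n4 : ‖((q - q' : ℝ) : ℂ) * ex φ‖ ≤ ε * B := by
    rw [norm_mul, Complex.norm_real, Real.norm_eq_abs, norm_ex, mul_one]; exact hqq'
  have n5 : ‖c q - c q'‖ ≤ ε * B := e4.trans hqq'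
  refine (norm_sub_le _ _).trans ?_
  refine (add_le_add_left (norm_add_le _ _) _).trans ?_
  refine (add_le_add_left (add_le_add_left (norm_add_le _ _) _) _).trans ?_
  refine (add_le_add_left (add_le_add_left (add_le_add_left (norm_sub_le _ _) _) _) _).trans ?_
  linarith

end TanData

end Pool.Agent.Lib.MP_fd4af6_gt
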