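import Mathlib

/-! Polar structure of a convex loop around an interior point. -/

set_option autoImplicit false

open Set Real

namespace Pool.Agent.Lib.MP_fd4af6_gt

/-- the unit vector of angle `φ` -/
noncomputable def ex (φ : ℝ) : ℂ := Complex.exp (φ * Complex.I)

lemma ex_re (φ : ℝ) : (ex φ).re = cos φ := by simp [ex, Complex.exp_ofReal_mul_I_re]
lemma ex_im (φ : ℝ) : (ex φ).im = sin φ := by simp [ex, Complex.exp_ofReal_mul_I_im]
lemma norm_ex (φ : ℝ) : ‖ex φ‖ = 1 := by simp [ex, Complex.norm_exp_ofReal_mul_I]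
lemma ex_add (a b : ℝ) : ex (a + b) = ex a * ex b := by
  simp [ex, ← Complex.exp_add, add_mul]
lemma ex_zero : ex 0 = 1 := by simp [ex]
lemma ex_two_pi : ex (2 * π) = 1 := by
  apply Complex.ext <;> simp [ex_re, ex_im]
lemma ex_add_two_pi (a : ℝ) : ex (a + 2 * π) = ex a := by rw [ex_add, ex_two_pi, mul_one]
lemma ex_periodic : Function.Periodic ex (2 * π) := ex_add_two_pi
lemma continuous_ex : Continuous ex := by unfold ex; fun_prop
lemma ex_ne_zero (a : ℝ) : ex a ≠ 0 := Complex.exp_ne_zero _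
lemma hasDerivAt_ex (a : ℝ) : HasDerivAt ex (Complex.I * ex a) a := by
  unfold ex
  have h1 : HasDerivAt (fun x : ℝ => (x : ℂ) * Complex.I) (1 * Complex.I) a :=
    (Complex.ofRealCLM.hasDerivAt (x := a)).mul_const _
  have := h1.cexp
  convert this using 1
  ring
lemma ex_neg_mul (a : ℝ) : ex (-a) * ex a = 1 := by rw [← ex_add]; simp [ex_zero]
lemma norm_ex_sub_ex (a b : ℝ) : ‖ex a - ex b‖ ≤ |a - b| := by
  have : ex a - ex b = (ex (a - b) - 1) * ex b := by
    rw [sub_mul, ← ex_add]; simp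
  rw [this, norm_mul, norm_ex, mul_one]
  have h := Real.norm_exp_I_mul_ofReal_sub_one_le (x := a - b)
  unfold ex
  rw [mul_comm]
  simpa using h

/-- the linear functional `z ↦ det (z, e^{iφ})` -/
noncomputable def sf (φ : ℝ) (z : ℂ) : ℝ := z.re * sin φ - z.im * cos φ

lemma sf_polar (φ r a : ℝ) : sf φ ((r : ℂ) * ex a) = r * sin (φ - a) := by
  simp [sf, ex_re, ex_im, sin_sub]; ring

lemma sf_combo (φ a b : ℝ) (x y : ℂ) : sf φ ((a : ℂ) * x + (b : ℂ) * y) = a * sf φ x + b * sf φ y := by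
  simp [sf]; ring

lemma sf_sub (φ : ℝ) (x y : ℂ) : sf φ (x - y) = sf φ x - sf φ y := by
  simp [sf]; ring

lemma sf_add_int (φ : ℝ) (k : ℤ) (z : ℂ) : sf (φ + k * (2 * π)) z = sf φ z := by
  simp [sf, sin_add_int_mul_two_pi, cos_add_int_mul_two_pi]

structure Polar (c : ℝ → ℂ) (θ : ℝ → ℝ) (K : Set ℂ) : Prop where
  cont : Continuous c
  per : Function.Periodic c 1
  inj : InjOn c (Ico 0 1)
  conv : Convex ℝ K
  zero_mem : (0 : ℂ) ∈ interior K
  mem : ∀ t, c t ∈ K
  not_mem : ∀ t, c t ∉ interior K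
  θcont : Continuous θ
  polar : ∀ t, c t = (‖c t‖ : ℂ) * ex (θ t)
  wind : θ 1 = θ 0 + 2 * π

lemma sub_combo_interior {K : Set ℂ} (hK : Convex ℝ K) (h0 : (0 : ℂ) ∈ interior K) {x y : ℂ}
    (hx : x ∈ K) (hy : y ∈ K) {a b : ℝ} (ha : 0 ≤ a) (hb : 0 ≤ b) (hab : a + b < 1) :
    (a : ℂ) * x + (b : ℂ) * y ∈ interior K := by
  rcases eq_or_lt_of_le (add_nonneg ha hb) with h | h
  · have ha0 : a = 0 := by linarith
    have hb0 : b = 0 := by linarith
    simpa [ha0, hb0] using h0
  · have hz : (a / (a + b)) • x + (b / (a + b)) • y ∈ K :=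
      hK hx hy (div_nonneg ha h.le) (div_nonneg hb h.le) (by field_simp)
    have := hK.combo_interior_self_mem_interior h0 hz (a := 1 - (a + b)) (b := a + b)
      (by linarith) h.le (by ring)
    convert this using 1
    have hne : ((a : ℂ) + b) ≠ 0 := by exact_mod_cast h.ne'
    simp only [smul_zero, zero_add, Complex.real_smul]
    push_cast
    field_simp

namespace Polar

variable {c : ℝ → ℂ} {θ : ℝ → ℝ} {K : Set ℂ} (P : Polar c θ K)
include P

lemma norm_pos (t : ℝ) : 0 < ‖c t‖ := by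
  rw [norm_pos_iff]
  intro h
  exact P.not_mem t (h ▸ P.zero_mem)

lemma ex_add_one (t : ℝ) : ex (θ (t + 1)) = ex (θ t) := by
  have h1 := P.polar (t + 1)
  have h2 := P.polar t
  rw [P.per t] at h1
  have hne : ((‖c t‖ : ℝ) : ℂ) ≠ 0 := by exact_mod_cast (P.norm_pos t).ne'
  exact mul_left_cancel₀ hne (h1.symm.trans h2)

lemma θ_add_one (t : ℝ) : θ (t + 1) = θ t + 2 * π := by
  set u : ℝ → ℝ := fun s => θ (s + 1) - θ s - 2 * π with hu
  have hucont : Continuous u := by
    have := P.θcont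
    simp only [hu]; fun_prop
  have hu0 : u 0 = 0 := by simp [hu, P.wind]
  have hcos : ∀ s, cos (u s) = 1 := by
    intro s
    have h : ex (u s) = 1 := by
      have h2 : ex (θ (s + 1)) = ex (u s) * ex (θ s) := by
        rw [← ex_add, ← ex_add_two_pi (u s + θ s)]; congr 1; simp only [hu]; ring
      rw [P.ex_add_one] at h2
      exact (mul_right_cancel₀ (ex_ne_zero (θ s)) (by rw [← h2, one_mul])).symm
    rw [← ex_re, h]; simp
  by_contra hne
  have hut : u t ≠ 0 := by
    intro h; apply hne; simp only [hu] at h; linarith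
  obtain ⟨n, hn⟩ := (Real.cos_eq_one_iff (u t)).1 (hcos t)
  have hn0 : n ≠ 0 := by rintro rfl; apply hut; rw [← hn]; simp
  rcases lt_or_gt_of_ne hn0 with h | h
  · have : (n : ℝ) ≤ -1 := by exact_mod_cast (Int.le_sub_one_of_lt h)
    have hmem : -π ∈ Set.Icc (u t) (u 0) := by
      rw [hu0, ← hn]; constructor <;> nlinarith [pi_pos]
    obtain ⟨s, hs⟩ := mem_range_of_exists_le_of_exists_ge hucont ⟨t, hmem.1⟩ ⟨0, hmem.2⟩
    have := hcos s
    rw [hs] at this
    simp at this
    norm_num at this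
  · have : (1 : ℝ) ≤ n := by exact_mod_cast h
    have hmem : π ∈ Set.Icc (u 0) (u t) := by
      rw [hu0, ← hn]; constructor <;> nlinarith [pi_pos]
    obtain ⟨s, hs⟩ := mem_range_of_exists_le_of_exists_ge hucont ⟨0, hmem.1⟩ ⟨t, hmem.2⟩
    have := hcos s
    rw [hs] at this
    simp at this
    norm_num at this

lemma θ_add_int (t : ℝ) (k : ℤ) : θ (t + k) = θ t + k * (2 * π) := by
  have hper : Function.Periodic (fun s => θ s - s * (2 * π)) 1 := by
    intro s; simp only [P.θ_add_one]; ring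
  have := hper.int_mul k t
  simp only [mul_one] at this
  linarith

lemma c_add_int (t : ℝ) (k : ℤ) : c (t + k) = c t := by
  simpa using P.per.int_mul k t

lemma eq_of_θ_eq {s t : ℝ} (h : θ s = θ t) : c s = c t := by
  have key : ∀ s t, θ s = θ t → ¬ ‖c s‖ < ‖c t‖ := by
    intro s t h hlt
    have hpos := P.norm_pos t
    have := sub_combo_interior P.conv P.zero_mem (P.mem t) (P.mem t) (a := ‖c s‖ / ‖c t‖) (b := 0)
      (div_nonneg (norm_nonneg _) (norm_nonneg _)) le_rfl (by rw [add_zero, div_lt_one hpos]; exact hlt)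
    apply P.not_mem s
    convert this using 1
    have hne : ((‖c t‖ : ℝ) : ℂ) ≠ 0 := by exact_mod_cast hpos.ne'
    conv_lhs => rw [P.polar s, h]
    conv_rhs => rw [Complex.ofReal_zero, zero_mul, add_zero, Complex.ofReal_div]; arg 2; rw [P.polar t]
    field_simp
  have hn : ‖c s‖ = ‖c t‖ := le_antisymm (not_lt.1 (key t s h.symm)) (not_lt.1 (key s t h))
  rw [P.polar s, P.polar t, hn, h]

lemma θ_injective : Function.Injective θ := by
  intro s t h
  have hc := P.eq_of_θ_eq h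
  have h1 : c (Int.fract s) = c s := by
    rw [← P.c_add_int (Int.fract s) ⌊s⌋, Int.fract_add_floor]
  have h2 : c (Int.fract t) = c t := by
    rw [← P.c_add_int (Int.fract t) ⌊t⌋, Int.fract_add_floor]
  have hf : Int.fract s = Int.fract t :=
    P.inj ⟨Int.fract_nonneg s, Int.fract_lt_one s⟩ ⟨Int.fract_nonneg t, Int.fract_lt_one t⟩
      (by rw [h1, h2, hc])
  have hs : s = t + ((⌊s⌋ - ⌊t⌋ : ℤ) : ℝ) := by
    have a := Int.fract_add_floor s
    have b := Int.fract_add_floor t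
    push_cast; linarith
  have h3 := P.θ_add_int t (⌊s⌋ - ⌊t⌋)
  rw [← hs, h] at h3
  have h4 : ((⌊s⌋ - ⌊t⌋ : ℤ) : ℝ) = 0 := by
    have : ((⌊s⌋ - ⌊t⌋ : ℤ) : ℝ) * (2 * π) = 0 := by linarith
    rcases mul_eq_zero.1 this with h | h
    · exact h
    · exact absurd h (by positivity)
  rw [hs, h4, add_zero]

lemma θ_strictMono : StrictMono θ := by
  rcases P.θcont.strictMono_of_inj P.θ_injective with h | h
  · exact h
  · have := h (show (0 : ℝ) < 1 by norm_num)
    rw [P.wind] at this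
    linarith [pi_pos]

lemma θ_surj (a : ℝ) : ∃ t, θ t = a := by
  have hp : 0 < 2 * π := by positivity
  have h1 : ∃ t, θ t ≤ a := by
    refine ⟨(0 : ℝ) + (⌊(a - θ 0) / (2 * π)⌋ : ℤ), ?_⟩
    rw [P.θ_add_int]
    have := Int.floor_le ((a - θ 0) / (2 * π))
    rw [le_div_iff₀ hp] at this
    linarith
  have h2 : ∃ t, a ≤ θ t := by
    refine ⟨(0 : ℝ) + (⌈(a - θ 0) / (2 * π)⌉ : ℤ), ?_⟩
    rw [P.θ_add_int]
    have := Int.le_ceil ((a - θ 0) / (2 * π))
    rw [div_le_iff₀ hp] at this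
    linarith
  exact mem_range_of_exists_le_of_exists_ge P.θcont h1 h2

/-- A point of the curve lies beyond every chord that spans an angle less than `π`. -/
lemma chord {s t u : ℝ} (hst : s ≤ t) (htu : t ≤ u) (hang : θ u - θ s < π) :
    ∃ a b : ℝ, 0 ≤ a ∧ 0 ≤ b ∧ 1 ≤ a + b ∧ c t = (a : ℂ) * c s + (b : ℂ) * c u := by
  rcases eq_or_lt_of_le (hst.trans htu) with h | h
  · have : t = s := le_antisymm (h ▸ htu) hst
    exact ⟨1, 0, by norm_num, le_rfl, by norm_num, by simp [this]⟩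
  have hΔ : 0 < θ u - θ s := sub_pos.2 (P.θ_strictMono h)
  have hsin : 0 < sin (θ u - θ s) := sin_pos_of_pos_of_lt_pi hΔ hang
  have m1 := P.θ_strictMono.monotone hst
  have m2 := P.θ_strictMono.monotone htu
  have s1 : 0 ≤ sin (θ u - θ t) := sin_nonneg_of_nonneg_of_le_pi (by linarith) (by linarith)
  have s2 : 0 ≤ sin (θ t - θ s) := sin_nonneg_of_nonneg_of_le_pi (by linarith) (by linarith)
  have ps := P.norm_pos s
  have pt := P.norm_pos t
  have pu := P.norm_pos u
  set a := ‖c t‖ * sin (θ u - θ t) / (‖c s‖ * sin (θ u - θ s)) with ha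
  set b := ‖c t‖ * sin (θ t - θ s) / (‖c u‖ * sin (θ u - θ s)) with hb
  have ha0 : 0 ≤ a := by positivity
  have hb0 : 0 ≤ b := by positivity
  have heq : c t = (a : ℂ) * c s + (b : ℂ) * c u := by
    have e1 : a * ‖c s‖ = ‖c t‖ * sin (θ u - θ t) / sin (θ u - θ s) := by
      rw [ha]; field_simp
    have e2 : b * ‖c u‖ = ‖c t‖ * sin (θ t - θ s) / sin (θ u - θ s) := by
      rw [hb]; field_simp
    have : (a : ℂ) * c s + (b : ℂ) * c u
        = ((a * ‖c s‖ : ℝ) : ℂ) * ex (θ s) + ((b * ‖c u‖ : ℝ) : ℂ) * ex (θ u) := by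
      conv_lhs => rw [P.polar s, P.polar u]
      push_cast; ring
    rw [this, e1, e2]
    conv_lhs => rw [P.polar t]
    have hs' := hsin.ne'
    apply Complex.ext
    · simp only [Complex.mul_re, Complex.ofReal_re, Complex.ofReal_im, zero_mul, sub_zero,
        Complex.add_re, ex_re]
      field_simp
      simp only [sin_sub]
      ring
    · simp only [Complex.mul_im, Complex.ofReal_re, Complex.ofReal_im, zero_mul, add_zero,
        Complex.add_im, ex_im]
      field_simp
      simp only [sin_sub]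
      ring
  refine ⟨a, b, ha0, hb0, ?_, heq⟩
  by_contra hlt
  exact P.not_mem t (heq ▸ sub_combo_interior P.conv P.zero_mem (P.mem s) (P.mem u) ha0 hb0
    (not_le.1 hlt))

end Polar

end Pool.Agent.Lib.MP_fd4af6_gt
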