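import Pool.Agent.Lib.MP_fd4af6_gt.Moll

/-! Every billiard table comes from an admissible inverse tangent-angle function. -/

set_option autoImplicit false

open Set Real MeasureTheory intervalIntegral Filter Topology
open scoped ContDiff ENNReal ComplexConjugate

namespace Pool.Agent.Lib.MP_fd4af6_gt

lemma exists_polar {C : ℝ → ℂ} (hC : IsConvexLoop C) :
    ∃ p θ K, Polar (fun t => C t - p) θ K := by
  obtain ⟨hc, hper, hinj, K, hK, hconv, hfr, p, hp, θ, hθ, hpol, hw⟩ := hC
  have hmem : ∀ t, C t ∈ K ∧ C t ∉ interior K := by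
    intro t
    have : C t ∈ frontier K := hfr ▸ mem_range_self t
    rw [hK.isClosed.frontier_eq] at this
    exact this
  have hint : interior ((fun z => p + z) ⁻¹' K) = (fun z => p + z) ⁻¹' interior K :=
    ((Homeomorph.addLeft p).preimage_interior K).symm
  exact ⟨p, θ, (fun z => p + z) ⁻¹' K,
    { cont := hc.sub continuous_const
      per := fun t => by simp only [hper t]
      inj := fun a ha b hb h => hinj ha hb (sub_left_injective h)
      conv := hconv.translate_preimage_right p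
      zero_mem := by rw [hint]; simpa using hp
      mem := fun t => by simpa using (hmem t).1
      not_mem := fun t => by rw [hint]; simpa using (hmem t).2
      θcont := hθ
      polar := hpol
      wind := hw }⟩

lemma exists_tanData {C : ℝ → ℂ} (hC : IsConvexLoop C) (hunit : HasUnitSpeedOn C Set.univ) :
    ∃ L κ, TanData C L κ := by
  obtain ⟨p, θ, K, P⟩ := exists_polar hC
  have hu : HasUnitSpeedOn (fun t => C t - p) univ := by
    intro x hx y hy
    rw [← hunit hx hy]
    unfold eVariationOn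
    simp only [edist_sub_right]
  obtain ⟨L, κ, T⟩ := P.exists_tanData hu
  refine ⟨L, κ, T.mono, T.per, T.κpos, hC.2.1, fun q r => ?_,
    fun φ₁ φ₂ q r h1 h2 h3 h4 h5 => ?_⟩
  · simpa using T.lip q r
  · simpa using T.est φ₁ φ₂ q r h1 h2 h3 h4 h5

lemma eq_of_sin_nonneg {u : ℝ → ℝ} (hu : Continuous u) (hs : ∀ q, 0 ≤ sin (u q)) {m : ℤ}
    (hm : u 1 = u 0 + m * (2 * π)) : m = 0 := by
  have hp : 0 < 2 * π := by positivity
  by_contra hne
  rcases lt_or_gt_of_ne hne with h | h
  · have h1 : (m : ℝ) ≤ -1 := by exact_mod_cast (by omega : m ≤ -1)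
    obtain ⟨y, hy, he⟩ := sin_periodic.exists_mem_Ico hp (-(π / 2)) (u 1)
    obtain ⟨q, -, hq⟩ := intermediate_value_Icc' zero_le_one hu.continuousOn
      (show y ∈ Icc (u 1) (u 0) from ⟨hy.1, by nlinarith [hy.2]⟩)
    have := hs q
    rw [hq, ← he, sin_neg, sin_pi_div_two] at this
    linarith
  · have h1 : (1 : ℝ) ≤ m := by exact_mod_cast (by omega : 1 ≤ m)
    obtain ⟨y, hy, he⟩ := sin_periodic.exists_mem_Ico hp (-(π / 2)) (u 0)
    obtain ⟨q, -, hq⟩ := intermediate_value_Icc zero_le_one hu.continuousOn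
      (show y ∈ Icc (u 0) (u 1) from ⟨hy.1, by nlinarith [hy.2]⟩)
    have := hs q
    rw [hq, ← he, sin_neg, sin_pi_div_two] at this
    linarith

/-- The turning number of a convex loop is one. -/
lemma turn_one {α : ℝ → ℂ} (h : IsConvexLoop α) {θ : ℝ → ℝ} (hθ : Continuous θ)
    (hd : ∀ q, HasDerivAt α (ex (θ q)) q) : θ 1 = θ 0 + 2 * π := by
  obtain ⟨p, ϑ, K, P⟩ := exists_polar h
  have hs : ∀ q, 0 ≤ sin (θ q - ϑ q) := by
    intro q
    have h1 : HasDerivAt (fun t => sf (ϑ q) (α t - p)) (sf (ϑ q) (ex (θ q))) q := by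
      have h2 := (hd q).sub_const p
      exact ((Complex.reCLM.hasFDerivAt.comp_hasDerivAt q h2).mul_const _).sub
        ((Complex.imCLM.hasFDerivAt.comp_hasDerivAt q h2).mul_const _)
    have h3 : sf (ϑ q) (ex (θ q)) = -sin (θ q - ϑ q) := by
      have := sf_polar (ϑ q) 1 (θ q)
      rw [Complex.ofReal_one, one_mul, one_mul] at this
      rw [this, ← sin_neg, neg_sub]
    have h4 : ∀ᶠ t in 𝓝[>] (0 : ℝ), ϑ (q + t) < ϑ q + π := by
      have : Tendsto (fun t => ϑ (q + t)) (𝓝 0) (𝓝 (ϑ q)) := by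
        have := (P.θcont.comp (continuous_const.add continuous_id)).tendsto (0 : ℝ) (f := fun t => ϑ (q + t))
        simpa using this
      exact (this.eventually (gt_mem_nhds (by linarith [pi_pos]))).filter_mono nhdsWithin_le_nhds
    have h5 := le_of_tendsto h1.tendsto_slope_zero_right (b := 0) (by
      filter_upwards [h4, self_mem_nhdsWithin] with t ht ht0
      have ht0' : 0 < t := ht0
      have h6 := P.θ_strictMono (show q < q + t by linarith)
      have e1 := P.sf_c (ϑ q) (q + t)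
      have e2 := P.sf_c (ϑ q) q
      rw [e1, e2, sub_self, sin_zero, mul_zero, sub_zero, smul_eq_mul]
      refine mul_nonpos_of_nonneg_of_nonpos (inv_nonneg.2 ht0'.le)
        (mul_nonpos_of_nonneg_of_nonpos (norm_nonneg _) ?_)
      exact sin_nonpos_of_nonpos_of_neg_pi_le (by linarith) (by linarith))
    rw [h3] at h5
    linarith
  have h1 : ex (θ 1) = ex (θ 0) := by
    have h2 : HasDerivAt (fun x => α (x + 1)) (ex (θ (0 + 1))) 0 := (hd (0 + 1)).comp_add_const 0 1
    rw [zero_add, show (fun x => α (x + 1)) = α from funext h.2.1] at h2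
    exact h2.unique (hd 0)
  obtain ⟨n, hn⟩ := Complex.exp_eq_exp_iff_exists_int.1 h1
  have h3 : θ 1 = θ 0 + n * (2 * π) := by
    have := congrArg Complex.im hn
    simpa using this
  have h4 := eq_of_sin_nonneg (hθ.sub P.θcont) hs (m := n - 1) (by
    simp only [Pi.sub_apply, h3, P.wind]
    push_cast
    ring)
  rw [h3, show n = 1 by omega]
  simp

lemma exists_angle {α : ℝ → ℂ} (h : IsTable α) {q₀ θ₀ : ℝ} (h0 : deriv α q₀ = ex θ₀) :
    ∃ θ : ℝ → ℝ, ContDiff ℝ ∞ θ ∧ (∀ q, 0 < deriv θ q) ∧ (∀ q, θ (q + 1) = θ q + 2 * π) ∧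
      θ q₀ = θ₀ ∧ ∀ q, HasDerivAt α (ex (θ q)) q := by
  obtain ⟨hl, hs, hu, hk⟩ := h
  obtain ⟨d1, hv⟩ := contDiff_infty_iff_deriv.1 hs
  obtain ⟨d2, ha⟩ := contDiff_infty_iff_deriv.1 hv
  set v := deriv α with hvd
  set κ : ℝ → ℝ := fun q => (conj (v q) * deriv v q).im with hκ
  have hκs : ContDiff ℝ ∞ κ :=
    Complex.imCLM.contDiff.comp ((Complex.conjCLE.contDiff.comp hv).mul ha)
  have hvv : ∀ q, conj (v q) * v q = 1 := fun q => by
    rw [Complex.conj_mul', hu q]
    simp
  have ha' : ∀ q, deriv v q = Complex.I * κ q * v q := fun q => by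
    have h1 := ((d2 q).hasDerivAt.star.mul (d2 q).hasDerivAt)
    have h2 : (fun x => star (v x)) * v = fun _ => 1 := funext hvv
    rw [h2] at h1
    have h3 := congrArg Complex.re (h1.unique (hasDerivAt_const q (1 : ℂ)))
    have h4 : conj (v q) * deriv v q = Complex.I * κ q := by
      apply Complex.ext
      · simp at h3 ⊢
        linarith
      · simp [hκ]
    rw [← h4]
    linear_combination (-deriv v q) * hvv q
  set θ : ℝ → ℝ := fun q => θ₀ + ∫ s in q₀..q, κ s with hθ
  have hθd : ∀ q, HasDerivAt θ (κ q) q := fun q =>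
    (integral_hasDerivAt_right (hκs.continuous.intervalIntegrable _ _)
      (hκs.continuous.stronglyMeasurableAtFilter _ _) hκs.continuous.continuousAt).const_add θ₀
  have hθ' : deriv θ = κ := funext fun q => (hθd q).deriv
  have hθs : ContDiff ℝ ∞ θ :=
    contDiff_infty_iff_deriv.2 ⟨fun q => (hθd q).differentiableAt, hθ' ▸ hκs⟩
  have hθ0 : θ q₀ = θ₀ := by simp [hθ]
  have hz : ∀ q, HasDerivAt (fun x => v x * ex (-θ x)) 0 q := fun q => by
    have h1 := (d2 q).hasDerivAt.mul ((hasDerivAt_ex (-θ q)).scomp q (hθd q).neg)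
    refine h1.congr_deriv ?_
    rw [ha' q]
    simp only [Function.comp, Complex.real_smul, Pi.neg_apply]
    push_cast
    ring
  have hex : ∀ q, HasDerivAt α (ex (θ q)) q := fun q => by
    have h1 := is_const_of_deriv_eq_zero (f := fun x => v x * ex (-θ x))
      (fun x => (hz x).differentiableAt) (fun x => (hz x).deriv) q q₀
    simp only [hθ0, h0] at h1
    rw [mul_comm (ex θ₀), ex_neg_mul] at h1
    have h2 : v q = ex (θ q) := by
      linear_combination ex (θ q) * h1 - v q * ex_neg_mul (θ q)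
    exact h2 ▸ (d1 q).hasDerivAt
  have pv : v = fun x => v (x + 1) := by
    funext x
    rw [hvd, ← deriv_comp_add_const, show (fun x => α (x + 1)) = α from funext hl.2.1]
  have hper : ∀ q, κ (q + 1) = κ q := fun q => by
    simp only [hκ]
    rw [← deriv_comp_add_const, ← pv, ← congrFun pv q]
  have hz2 : ∀ q, HasDerivAt (fun x => θ (x + 1) - θ x) 0 q := fun q =>
    (((hθd (q + 1)).comp_add_const q 1).sub (hθd q)).congr_deriv (by rw [hper, sub_self])
  refine ⟨θ, hθs, fun q => hθ' ▸ hk q, fun q => ?_, hθ0, hex⟩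
  have h1 := is_const_of_deriv_eq_zero (f := fun x => θ (x + 1) - θ x)
    (fun x => (hz2 x).differentiableAt) (fun x => (hz2 x).deriv) q 0
  have h2 := turn_one hl hθs.continuous hex
  simp only [zero_add] at h1
  linarith

theorem table_rep {α : ℝ → ℂ} (h : IsTable α) {q₀ θ₀ : ℝ} (h0 : deriv α q₀ = ex θ₀) :
    ∃ Λ w, Adm Λ ∧ α = curve Λ w ∧ Λ θ₀ = q₀ := by
  obtain ⟨θ, hs, hp, hper, hθ0, hd⟩ := exists_angle h h0
  have hmono : StrictMono θ := strictMono_of_deriv_pos hp
  have hsurj : Function.Surjective θ := fun y => by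
    obtain ⟨x, hx⟩ := surj_of_per (Λ := fun x => θ (x / (2 * π)) / (2 * π))
      ((hs.continuous.comp (continuous_id.div_const _)).div_const _) (fun φ => by
        have : (φ + 2 * π) / (2 * π) = φ / (2 * π) + 1 := by field_simp
        simp only [this, hper]
        field_simp) (y / (2 * π))
    exact ⟨_, (div_left_inj' (by positivity)).1 hx⟩
  set Λ := Function.invFun θ with hΛ
  have r1 : ∀ φ, θ (Λ φ) = φ := Function.rightInverse_invFun hsurj
  have r2 : ∀ q, Λ (θ q) = q := Function.leftInverse_invFun hmono.injective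
  have hΛs : ContDiff ℝ ∞ Λ := contDiff_invFun hs hp hsurj
  have hΛd : ∀ φ, HasDerivAt Λ (deriv Λ φ) φ := fun φ =>
    (hΛs.differentiable (by simp) φ).hasDerivAt
  have hΛp : ∀ φ, Λ (φ + 2 * π) = Λ φ + 1 := fun φ => hmono.injective (by rw [hper, r1, r1])
  have hz : ∀ φ, HasDerivAt (fun x => α (Λ x) - Λ x * ex x + Complex.I * II Λ x) 0 φ := fun φ => by
    have h1 := (((hd (Λ φ)).scomp φ (hΛd φ)).sub
      ((hΛd φ).ofReal_comp.mul (hasDerivAt_ex φ))).add
      ((hasDerivAt_II hΛs.continuous φ).const_mul Complex.I)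
    refine h1.congr_deriv ?_
    rw [r1, Complex.real_smul]
    ring
  have hc : ∀ φ, α (Λ φ) - Λ φ * ex φ + Complex.I * II Λ φ = α (Λ 0) - Λ 0 := fun φ => by
    have h1 := is_const_of_deriv_eq_zero (fun x => (hz x).differentiableAt)
      (fun x => (hz x).deriv) φ 0
    simpa [ex_zero, II] using h1
  have A : Adm Λ := by
    refine ⟨hΛs, fun φ => ?_, hΛp, ?_⟩
    · have h1 := ((hs.differentiable (by simp) (Λ φ)).hasDerivAt).comp φ (hΛd φ)
      rw [show θ ∘ Λ = id from funext r1] at h1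
      have h2 := h1.unique (hasDerivAt_id φ)
      have h3 := hp (Λ φ)
      by_contra h4
      nlinarith [mul_nonneg h3.le (neg_nonneg.2 (not_lt.1 h4))]
    · have h1 := hc (0 + 2 * π)
      rw [hΛp, h.1.2.1, zero_add, ex_two_pi] at h1
      push_cast at h1
      linear_combination (-Complex.I) * h1 + II Λ (2 * π) * Complex.I_mul_I
  refine ⟨Λ, α (Λ 0) - Λ 0, A, funext fun q => ?_, hθ0 ▸ r2 q₀⟩
  have h1 := hc (Function.invFun Λ q)
  rw [A.apply_inv] at h1
  unfold curve
  linear_combination h1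

end Pool.Agent.Lib.MP_fd4af6_gt
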