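import Pool.Agent.Lib.MP_fd4af6_gt.Defs
import Pool.Agent.Lib.MP_fd4af6_gt.Involute
import Pool.Agent.Lib.MP_fd4af6_gt.Inverse

/-! The billiard table with a prescribed smooth inverse tangent-angle function. -/

set_option autoImplicit false

open Set Real MeasureTheory intervalIntegral Filter Topology
open scoped ContDiff

namespace Pool.Agent.Lib.MP_fd4af6_gt

/-- admissible inverse tangent-angle functions -/
structure Adm (Λ : ℝ → ℝ) : Prop where
  smooth : ContDiff ℝ ∞ Λ
  dpos : ∀ φ, 0 < deriv Λ φ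
  per : ∀ φ, Λ (φ + 2 * π) = Λ φ + 1
  closing : II Λ (2 * π) = -Complex.I

/-- the boundary point with tangent angle `φ` -/
noncomputable def XX (Λ : ℝ → ℝ) (w : ℂ) (φ : ℝ) : ℂ := w - Complex.I * II Λ φ + Λ φ * ex φ

/-- the arc-length parametrization -/
noncomputable def curve (Λ : ℝ → ℝ) (w : ℂ) (q : ℝ) : ℂ :=
  w - Complex.I * II Λ (Function.invFun Λ q) + q * ex (Function.invFun Λ q)

lemma contDiff_ex : ContDiff ℝ ∞ ex := by
  unfold ex
  exact (Complex.ofRealCLM.contDiff.mul contDiff_const).cexp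

lemma hasDerivAt_II {Λ : ℝ → ℝ} (h : Continuous Λ) (φ : ℝ) :
    HasDerivAt (II Λ) (ex φ * (Λ φ : ℂ)) φ := by
  have hc : Continuous fun t => ex t * (Λ t : ℂ) :=
    continuous_ex.mul (Complex.continuous_ofReal.comp h)
  exact integral_hasDerivAt_right (hc.intervalIntegrable _ _)
    (hc.stronglyMeasurableAtFilter _ _) hc.continuousAt

lemma contDiff_II {Λ : ℝ → ℝ} (h : ContDiff ℝ ∞ Λ) : ContDiff ℝ ∞ (II Λ) := by
  rw [contDiff_infty_iff_deriv]
  refine ⟨fun φ => (hasDerivAt_II h.continuous φ).differentiableAt, ?_⟩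
  have : deriv (II Λ) = fun φ => ex φ * (Λ φ : ℂ) :=
    funext fun φ => (hasDerivAt_II h.continuous φ).deriv
  rw [this]
  exact contDiff_ex.mul (Complex.ofRealCLM.contDiff.comp h)

lemma surj_of_per {Λ : ℝ → ℝ} (hc : Continuous Λ) (hp : ∀ φ, Λ (φ + 2 * π) = Λ φ + 1) :
    Function.Surjective Λ := by
  have hper : Function.Periodic (fun φ => Λ φ - φ / (2 * π)) (2 * π) := by
    intro φ; simp only [hp]; field_simp; ring
  have hint : ∀ k : ℤ, Λ (k * (2 * π)) = Λ 0 + k := by
    intro k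
    have := hper.int_mul k 0
    simp only [zero_add, zero_div, sub_zero] at this
    rw [mul_div_assoc, div_self (by positivity), mul_one] at this
    linarith
  intro a
  refine mem_range_of_exists_le_of_exists_ge hc ⟨(⌊a - Λ 0⌋ : ℤ) * (2 * π), ?_⟩
    ⟨(⌈a - Λ 0⌉ : ℤ) * (2 * π), ?_⟩
  · rw [hint]; linarith [Int.floor_le (a - Λ 0)]
  · rw [hint]; linarith [Int.le_ceil (a - Λ 0)]

namespace Adm

variable {Λ : ℝ → ℝ} (A : Adm Λ)
include A

lemma strictMono : StrictMono Λ := strictMono_of_deriv_pos A.dpos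
lemma surj : Function.Surjective Λ := surj_of_per A.smooth.continuous A.per
lemma apply_inv (q : ℝ) : Λ (Function.invFun Λ q) = q := Function.rightInverse_invFun A.surj q
lemma inv_apply (φ : ℝ) : Function.invFun Λ (Λ φ) = φ :=
  Function.leftInverse_invFun A.strictMono.injective φ
lemma inv_add_one (q : ℝ) : Function.invFun Λ (q + 1) = Function.invFun Λ q + 2 * π := by
  apply A.strictMono.injective
  rw [A.per, A.apply_inv, A.apply_inv]
lemma inv_strictMono : StrictMono (Function.invFun Λ) := by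
  intro a b hab
  rw [← A.strictMono.lt_iff_lt, A.apply_inv, A.apply_inv]; exact hab
lemma inv_smooth : ContDiff ℝ ∞ (Function.invFun Λ) := contDiff_invFun A.smooth A.dpos A.surj
lemma hasDerivAt (φ : ℝ) : HasDerivAt Λ (deriv Λ φ) φ :=
  (A.smooth.differentiable (by simp) φ).hasDerivAt
lemma inv_hasDerivAt (q : ℝ) :
    HasDerivAt (Function.invFun Λ) (deriv (Function.invFun Λ) q) q :=
  (A.inv_smooth.differentiable (by simp) q).hasDerivAt
lemma inv_dpos (q : ℝ) : 0 < deriv (Function.invFun Λ) q := by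
  have h1 := (A.hasDerivAt (Function.invFun Λ q)).comp q (A.inv_hasDerivAt q)
  have h2 : Λ ∘ Function.invFun Λ = id := funext A.apply_inv
  rw [h2] at h1
  have h3 := h1.unique (hasDerivAt_id q)
  have := A.dpos (Function.invFun Λ q)
  by_contra h
  nlinarith [mul_nonneg this.le (neg_nonneg.2 (not_lt.1 h))]

lemma curve_eq (w : ℂ) (q : ℝ) : curve Λ w q = XX Λ w (Function.invFun Λ q) := by
  simp [curve, XX, A.apply_inv]

lemma hasDerivAt_XX (w : ℂ) (φ : ℝ) :
    HasDerivAt (XX Λ w) ((deriv Λ φ : ℝ) * ex φ) φ := by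
  have h1 := ((hasDerivAt_II A.smooth.continuous φ).const_mul Complex.I).const_sub w
  have h2 := (A.hasDerivAt φ).ofReal_comp.mul (hasDerivAt_ex φ)
  exact (h1.add h2).congr_deriv (by ring)

lemma continuous_XX (w : ℂ) : Continuous (XX Λ w) :=
  continuous_iff_continuousAt.2 fun φ => (A.hasDerivAt_XX w φ).continuousAt

lemma deriv_per (φ : ℝ) : deriv Λ (φ + 2 * π) = deriv Λ φ := by
  have h1 : HasDerivAt (fun x => Λ (x + 2 * π)) (deriv Λ (φ + 2 * π)) φ :=
    (A.hasDerivAt (φ + 2 * π)).comp_add_const φ (2 * π)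
  have h2 : HasDerivAt (fun x => Λ (x + 2 * π)) (deriv Λ φ) φ := by
    simp only [A.per]; exact (A.hasDerivAt φ).add_const 1
  exact h1.unique h2

lemma XX_per (w : ℂ) : Function.Periodic (XX Λ w) (2 * π) := by
  have hd : ∀ φ, HasDerivAt (fun x => XX Λ w (x + 2 * π) - XX Λ w x) 0 φ := by
    intro φ
    have := ((A.hasDerivAt_XX w (φ + 2 * π)).comp_add_const φ (2 * π)).sub (A.hasDerivAt_XX w φ)
    rw [A.deriv_per, ex_add_two_pi, sub_self] at this
    exact this
  have hconst := is_const_of_deriv_eq_zero (f := fun x => XX Λ w (x + 2 * π) - XX Λ w x)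
    (fun x => (hd x).differentiableAt) (fun x => (hd x).deriv)
  intro φ
  have h := hconst φ 0
  have h0 : XX Λ w (0 + 2 * π) - XX Λ w 0 = 0 := by
    have h1 : II Λ 0 = 0 := by simp [II]
    have hI : Complex.I * Complex.I = -1 := Complex.I_mul_I
    unfold XX
    rw [A.per, ex_add_two_pi, zero_add, A.closing, h1, ex_zero]
    push_cast
    linear_combination hI
  exact sub_eq_zero.1 (h.trans h0)

end Adm

/-- signed distance of `z` from the tangent line of angle `φ` -/
noncomputable def gap (Λ : ℝ → ℝ) (w : ℂ) (z : ℂ) (φ : ℝ) : ℝ := ((z - XX Λ w φ) * ex (-φ)).im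

namespace Adm

variable {Λ : ℝ → ℝ} (A : Adm Λ) (w : ℂ)
include A

lemma gap_per (z : ℂ) : Function.Periodic (gap Λ w z) (2 * π) := by
  intro φ
  unfold gap
  rw [A.XX_per w φ, ← ex_add_two_pi (-(φ + 2 * π))]
  congr 3; ring

lemma continuous_gap : Continuous fun p : ℂ × ℝ => gap Λ w p.1 p.2 := by
  have h1 := A.continuous_XX w
  have h2 := continuous_ex
  exact Complex.continuous_im.comp ((continuous_fst.sub (h1.comp continuous_snd)).mul
    (h2.comp continuous_snd.neg))

lemma gap_pos {φ ψ : ℝ} (h1 : φ < ψ) (h2 : ψ < φ + 2 * π) : 0 < gap Λ w (XX Λ w ψ) φ := by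
  set k : ℝ → ℝ := fun ψ => gap Λ w (XX Λ w ψ) φ with hk
  have hd : ∀ ψ, HasDerivAt k (deriv Λ ψ * sin (ψ - φ)) ψ := by
    intro ψ
    have := (((A.hasDerivAt_XX w ψ).sub_const (XX Λ w φ)).mul_const (ex (-φ)))
    have h3 := Complex.imCLM.hasFDerivAt.comp_hasDerivAt ψ this
    refine h3.congr_deriv ?_
    rw [mul_assoc, ← ex_add]
    simp [ex_im, sub_eq_add_neg]
  have hcont : Continuous k := continuous_iff_continuousAt.2 fun ψ => (hd ψ).continuousAt
  have k0 : k φ = 0 := by simp [hk, gap]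
  have k1 : k (φ + 2 * π) = 0 := by simp [hk, gap, A.XX_per w φ]
  have hmono : StrictMonoOn k (Icc φ (φ + π)) := by
    apply strictMonoOn_of_deriv_pos (convex_Icc _ _) hcont.continuousOn
    intro x hx
    rw [interior_Icc] at hx
    rw [(hd x).deriv]
    exact mul_pos (A.dpos x) (sin_pos_of_pos_of_lt_pi (by linarith [hx.1]) (by linarith [hx.2]))
  have hanti : StrictAntiOn k (Icc (φ + π) (φ + 2 * π)) := by
    apply strictAntiOn_of_deriv_neg (convex_Icc _ _) hcont.continuousOn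
    intro x hx
    rw [interior_Icc] at hx
    rw [(hd x).deriv]
    apply mul_neg_of_pos_of_neg (A.dpos x)
    rw [← sin_sub_two_pi]
    exact sin_neg_of_neg_of_neg_pi_lt (by linarith [hx.2]) (by linarith [hx.1])
  show 0 < k ψ
  rcases le_total ψ (φ + π) with h | h
  · rw [← k0]; exact hmono ⟨le_rfl, by linarith [pi_pos]⟩ ⟨h1.le, h⟩ h1
  · rw [← k1]; exact hanti ⟨h, h2.le⟩ ⟨by linarith [pi_pos], le_rfl⟩ h2

lemma gap_nonneg (φ ψ : ℝ) : 0 ≤ gap Λ w (XX Λ w ψ) φ := by
  obtain ⟨y, hy, he⟩ := (A.XX_per w).exists_mem_Ico (by positivity) ψ φ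
  rw [he]
  rcases eq_or_lt_of_le hy.1 with h | h
  · rw [← h]; simp [gap]
  · exact (A.gap_pos w h hy.2).le

lemma XX_ne {φ ψ : ℝ} (h1 : φ < ψ) (h2 : ψ < φ + 2 * π) : XX Λ w ψ ≠ XX Λ w φ := by
  intro h
  have := A.gap_pos w h1 h2
  rw [h] at this
  simp [gap] at this

lemma gap_mid_pos (φ : ℝ) : 0 < gap Λ w ((XX Λ w 0 + XX Λ w π) / 2) φ := by
  obtain ⟨y, hy, he⟩ := (A.gap_per w ((XX Λ w 0 + XX Λ w π) / 2)).exists_mem_Ico
    (by positivity) φ 0
  rw [he]
  have hsplit : gap Λ w ((XX Λ w 0 + XX Λ w π) / 2) y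
      = (gap Λ w (XX Λ w 0) y + gap Λ w (XX Λ w π) y) / 2 := by
    unfold gap
    have : ((XX Λ w 0 + XX Λ w π) / 2 - XX Λ w y) * ex (-y)
        = ((XX Λ w 0 - XX Λ w y) * ex (-y) + (XX Λ w π - XX Λ w y) * ex (-y)) / 2 := by ring
    rw [this]; simp
  rw [hsplit]
  have a := A.gap_nonneg w y 0
  have b := A.gap_nonneg w y π
  rcases eq_or_lt_of_le hy.1 with h | h
  · have := A.gap_pos w (φ := y) (ψ := π) (by rw [← h]; exact pi_pos)
      (by rw [← h]; linarith [pi_pos])
    linarith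
  · have := A.gap_pos w (φ := y) (ψ := 0 + 2 * π) hy.2 (by linarith)
    rw [A.XX_per w 0] at this
    linarith

lemma isOpen_gap : IsOpen {z : ℂ | ∀ φ, 0 < gap Λ w z φ} := by
  rw [isOpen_iff_mem_nhds]
  intro z hz
  have := (isCompact_Icc (a := (0 : ℝ)) (b := 2 * π)).eventually_forall_of_forall_eventually
    (x₀ := z) (P := fun z φ => 0 < gap Λ w z φ) (fun φ _ =>
      (A.continuous_gap w).continuousAt.eventually (lt_mem_nhds (hz φ)))
  filter_upwards [this] with y hy φ
  obtain ⟨x, hx, he⟩ := (A.gap_per w y).exists_mem_Ico₀ (by positivity) φ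
  rw [he]; exact hy x ⟨hx.1, hx.2.le⟩

lemma eq_XX_of_gap {z : ℂ} (hz : ∀ φ, 0 ≤ gap Λ w z φ) {φ : ℝ} (h : gap Λ w z φ = 0) :
    z = XX Λ w φ := by
  have hex : HasDerivAt (fun x => ex (-x)) (-(Complex.I * ex (-φ))) φ := by
    exact ((hasDerivAt_ex (-φ)).scomp φ (hasDerivAt_neg φ)).congr_deriv (by simp)
  have h1 := ((A.hasDerivAt_XX w φ).const_sub z).mul hex
  have h3 := Complex.imCLM.hasFDerivAt.comp_hasDerivAt φ h1
  have hmin : IsLocalMin (gap Λ w z) φ := Eventually.of_forall fun x => by rw [h]; exact hz x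
  have h4 := hmin.hasDerivAt_eq_zero h3
  have h5 : ex φ * ex (-φ) = 1 := by rw [mul_comm, ex_neg_mul]
  have h6 : -((deriv Λ φ : ℝ) * ex φ) * ex (-φ) + (z - XX Λ w φ) * -(Complex.I * ex (-φ))
      = -(deriv Λ φ : ℝ) - Complex.I * ((z - XX Λ w φ) * ex (-φ)) := by
    linear_combination (-(deriv Λ φ : ℝ) : ℂ) * h5
  rw [h6] at h4
  have h7 : ((z - XX Λ w φ) * ex (-φ)).re = 0 := by
    generalize (z - XX Λ w φ) * ex (-φ) = y at h4
    simpa using h4
  have h8 : (z - XX Λ w φ) * ex (-φ) = 0 := Complex.ext h7 h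
  exact sub_eq_zero.1 ((mul_eq_zero.1 h8).resolve_right (ex_ne_zero _))

lemma convex_gap : Convex ℝ {z : ℂ | ∀ φ, 0 ≤ gap Λ w z φ} := by
  intro x hx y hy a b ha hb hab φ
  have : gap Λ w (a • x + b • y) φ = a * gap Λ w x φ + b * gap Λ w y φ := by
    unfold gap
    have hab' : (a : ℂ) + b = 1 := by exact_mod_cast hab
    have : (a • x + b • y - XX Λ w φ) * ex (-φ)
        = a * ((x - XX Λ w φ) * ex (-φ)) + b * ((y - XX Λ w φ) * ex (-φ)) := by
      simp only [Complex.real_smul]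
      linear_combination (XX Λ w φ * ex (-φ)) * hab'
    rw [this]; simp
  rw [this]
  exact add_nonneg (mul_nonneg ha (hx φ)) (mul_nonneg hb (hy φ))

lemma isClosed_gap : IsClosed {z : ℂ | ∀ φ, 0 ≤ gap Λ w z φ} := by
  simp only [ofPred_forall]
  exact isClosed_iInter fun φ => isClosed_le continuous_const
    ((A.continuous_gap w).comp (continuous_id.prodMk continuous_const))

omit A in
lemma isBounded_gap : Bornology.IsBounded {z : ℂ | ∀ φ, 0 ≤ gap Λ w z φ} := by
  rw [isBounded_iff_forall_norm_le]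
  refine ⟨‖XX Λ w 0‖ + ‖XX Λ w π‖ + (‖XX Λ w (π / 2)‖ + ‖XX Λ w (-(π / 2))‖), fun z hz => ?_⟩
  have h0 := hz 0
  have h1 := hz π
  have h2 := hz (π / 2)
  have h3 := hz (-(π / 2))
  simp [gap, ex_re, ex_im] at h0 h1 h2 h3
  have a0 := abs_le.1 (Complex.abs_im_le_norm (XX Λ w 0))
  have a1 := abs_le.1 (Complex.abs_im_le_norm (XX Λ w π))
  have a2 := abs_le.1 (Complex.abs_re_le_norm (XX Λ w (π / 2)))
  have a3 := abs_le.1 (Complex.abs_re_le_norm (XX Λ w (-(π / 2))))
  have b0 := norm_nonneg (XX Λ w 0)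
  have b1 := norm_nonneg (XX Λ w π)
  have b2 := norm_nonneg (XX Λ w (π / 2))
  have b3 := norm_nonneg (XX Λ w (-(π / 2)))
  have c1 : |z.re| ≤ ‖XX Λ w (π / 2)‖ + ‖XX Λ w (-(π / 2))‖ := abs_le.2 ⟨by linarith, by linarith⟩
  have c2 : |z.im| ≤ ‖XX Λ w 0‖ + ‖XX Λ w π‖ := abs_le.2 ⟨by linarith, by linarith⟩
  linarith [Complex.norm_le_abs_re_add_abs_im z]

lemma subset_interior_gap :
    {z : ℂ | ∀ φ, 0 < gap Λ w z φ} ⊆ interior {z : ℂ | ∀ φ, 0 ≤ gap Λ w z φ} :=
  interior_maximal (fun _ hz φ => (hz φ).le) (A.isOpen_gap w)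

lemma frontier_gap : frontier {z : ℂ | ∀ φ, 0 ≤ gap Λ w z φ} = range (XX Λ w) := by
  rw [(A.isClosed_gap w).frontier_eq]
  ext z
  constructor
  · rintro ⟨hz, hni⟩
    have : ¬ ∀ φ, 0 < gap Λ w z φ := fun h => hni (A.subset_interior_gap w h)
    obtain ⟨φ, hφ⟩ := not_forall.1 this
    exact ⟨φ, (A.eq_XX_of_gap w hz (le_antisymm (not_lt.1 hφ) (hz φ))).symm⟩
  · rintro ⟨ψ, rfl⟩
    refine ⟨fun φ => A.gap_nonneg w φ ψ, fun hi => ?_⟩
    rw [mem_interior_iff_mem_nhds, Metric.mem_nhds_iff] at hi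
    obtain ⟨ε, hε, hb⟩ := hi
    have hmem : XX Λ w ψ - ((ε / 2 : ℝ) : ℂ) * (Complex.I * ex ψ) ∈ Metric.ball (XX Λ w ψ) ε := by
      rw [Metric.mem_ball, dist_eq_norm, sub_sub_cancel_left, norm_neg, norm_mul, norm_mul,
        Complex.norm_I, norm_ex, Complex.norm_real, Real.norm_eq_abs, abs_of_pos (by linarith)]
      linarith
    have h1 := hb hmem ψ
    have h5 : ex ψ * ex (-ψ) = 1 := by rw [mul_comm, ex_neg_mul]
    have h2 : (XX Λ w ψ - ((ε / 2 : ℝ) : ℂ) * (Complex.I * ex ψ) - XX Λ w ψ) * ex (-ψ)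
        = -((ε / 2 : ℝ) : ℂ) * Complex.I := by
      linear_combination (-((ε / 2 : ℝ) : ℂ) * Complex.I) * h5
    unfold gap at h1
    rw [h2] at h1
    simp at h1
    linarith

lemma hasDerivAt_curve (q : ℝ) : HasDerivAt (curve Λ w) (ex (Function.invFun Λ q)) q := by
  have h1 := (A.hasDerivAt_XX w (Function.invFun Λ q)).scomp q (A.inv_hasDerivAt q)
  have h2 := (A.hasDerivAt (Function.invFun Λ q)).comp q (A.inv_hasDerivAt q)
  have h3 : Λ ∘ Function.invFun Λ = id := funext A.apply_inv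
  rw [h3] at h2
  have h4 := h2.unique (hasDerivAt_id q)
  have h5 : curve Λ w = XX Λ w ∘ Function.invFun Λ := funext (A.curve_eq w)
  rw [h5]
  refine h1.congr_deriv ?_
  rw [Complex.real_smul, ← mul_assoc, ← Complex.ofReal_mul, mul_comm (deriv _ q), h4]
  simp

lemma contDiff_curve : ContDiff ℝ ∞ (curve Λ w) := by
  unfold curve
  exact (contDiff_const.sub (contDiff_const.mul ((contDiff_II A.smooth).comp A.inv_smooth))).add
    (Complex.ofRealCLM.contDiff.mul (contDiff_ex.comp A.inv_smooth))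

theorem isConvexLoop_curve : IsConvexLoop (curve Λ w) := by
  have hcont := (A.contDiff_curve w).continuous
  have hper : Function.Periodic (curve Λ w) 1 := by
    intro q; rw [A.curve_eq, A.curve_eq, A.inv_add_one, A.XX_per w]
  refine ⟨hcont, hper, ?_, {z : ℂ | ∀ φ, 0 ≤ gap Λ w z φ},
    Metric.isCompact_of_isClosed_isBounded (A.isClosed_gap w) (isBounded_gap w), A.convex_gap w,
    ?_, (XX Λ w 0 + XX Λ w π) / 2, A.subset_interior_gap w (A.gap_mid_pos w), ?_⟩
  · have key : ∀ a b, a ∈ Ico (0 : ℝ) 1 → b ∈ Ico (0 : ℝ) 1 → a < b →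
        curve Λ w b ≠ curve Λ w a := by
      intro a b ha hb hab
      rw [A.curve_eq, A.curve_eq]
      refine A.XX_ne w (A.inv_strictMono hab) ?_
      rw [← A.inv_add_one]
      exact A.inv_strictMono (by linarith [ha.1, hb.2])
    intro a ha b hb h
    rcases lt_trichotomy a b with h' | h' | h'
    · exact absurd h.symm (key a b ha hb h')
    · exact h'
    · exact absurd h (key b a hb ha h')
  · rw [A.frontier_gap w]
    ext z
    constructor
    · rintro ⟨φ, rfl⟩
      exact ⟨Λ φ, by rw [A.curve_eq, A.inv_apply]⟩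
    · rintro ⟨q, rfl⟩
      exact ⟨_, (A.curve_eq w q).symm⟩
  · set p := (XX Λ w 0 + XX Λ w π) / 2 with hp
    set z : ℝ → ℂ := fun q => (p - curve Λ w q) * ex (-Function.invFun Λ q) with hz
    have hzim : ∀ q, 0 < (z q).im := by
      intro q
      have := A.gap_mid_pos w (Function.invFun Λ q)
      simp only [hz, A.curve_eq]; exact this
    have hinv := A.inv_smooth.continuous
    have hzc : Continuous z := (continuous_const.sub hcont).mul (continuous_ex.comp hinv.neg)
    have harg : Continuous fun q => Complex.arg (z q) :=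
      continuous_iff_continuousAt.2 fun q =>
        (Complex.continuousAt_arg (Or.inr (hzim q).ne')).comp hzc.continuousAt
    refine ⟨fun q => Function.invFun Λ q + π + Complex.arg (z q),
      (hinv.add continuous_const).add harg, fun q => ?_, ?_⟩
    · have h1 : ‖curve Λ w q - p‖ = ‖z q‖ := by
        simp only [hz]; rw [norm_mul, norm_ex, mul_one, norm_sub_rev]
      have h2 : (‖z q‖ : ℂ) * ex (Complex.arg (z q)) = z q := Complex.norm_mul_exp_arg_mul_I _
      have h3 : ex π = -1 := by apply Complex.ext <;> simp [ex_re, ex_im]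
      have h4 := ex_neg_mul (Function.invFun Λ q)
      change _ = _ * ex _
      rw [h1, ex_add, ex_add, h3]
      have h5 : z q = (p - curve Λ w q) * ex (-Function.invFun Λ q) := rfl
      linear_combination (ex (Function.invFun Λ q)) * h2 + (ex (Function.invFun Λ q)) * h5
        + (p - curve Λ w q) * h4
    · have h1 : Function.invFun Λ 1 = Function.invFun Λ 0 + 2 * π := by
        simpa using A.inv_add_one 0
      have h2 : z 1 = z 0 := by
        have h3 : curve Λ w 1 = curve Λ w 0 := by simpa using hper 0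
        simp only [hz, h1, h3]
        rw [← ex_add_two_pi (-(Function.invFun Λ 0 + 2 * π))]
        congr 2; ring
      simp only [h1, h2]; ring

theorem isTable_curve : IsTable (curve Λ w) := by
  have hd : deriv (curve Λ w) = fun q => ex (Function.invFun Λ q) :=
    funext fun q => (A.hasDerivAt_curve w q).deriv
  refine ⟨A.isConvexLoop_curve w, A.contDiff_curve w, fun q => by rw [hd]; exact norm_ex _,
    fun q => ?_⟩
  have h2 := (hasDerivAt_ex (Function.invFun Λ q)).scomp q (A.inv_hasDerivAt q)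
  have h3 : deriv (deriv (curve Λ w)) q
      = deriv (Function.invFun Λ) q • (Complex.I * ex (Function.invFun Λ q)) := by
    rw [hd]; exact h2.deriv
  rw [h3, hd]
  have h4 := A.inv_dpos q
  have h5 := sin_sq_add_cos_sq (Function.invFun Λ q)
  simp [ex_re, ex_im]
  nlinarith

end Adm

end Pool.Agent.Lib.MP_fd4af6_gt
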