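import Pool.Agent.Lib.MP_fd4af6_gt.Polar

/-! The inverse tangent-angle function of a convex loop parametrized by arc length. -/

set_option autoImplicit false

open Set Real

namespace Pool.Agent.Lib.MP_fd4af6_gt

namespace Polar

variable {c : ℝ → ℂ} {θ : ℝ → ℝ} {K : Set ℂ} (P : Polar c θ K)
include P

lemma sf_c (φ t : ℝ) : sf φ (c t) = ‖c t‖ * sin (φ - θ t) := by
  conv_lhs => rw [P.polar t]
  exact sf_polar _ _ _

lemma exists_fract (t : ℝ) : ∃ s ∈ Icc (0 : ℝ) 1, c s = c t :=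
  ⟨Int.fract t, ⟨Int.fract_nonneg t, (Int.fract_lt_one t).le⟩, by
    rw [← P.c_add_int (Int.fract t) ⌊t⌋, Int.fract_add_floor]⟩

/-- support points: `t` maximizes `sf φ ∘ c` and has angle in the window of `φ` -/
def Supp (c : ℝ → ℂ) (θ : ℝ → ℝ) (κ φ t : ℝ) : Prop :=
  (∀ s, sf φ (c s) ≤ sf φ (c t)) ∧ φ - π + κ ≤ θ t ∧ θ t ≤ φ - κ

lemma exists_supp : ∃ κ : ℝ, 0 < κ ∧ κ ≤ 1 ∧ ∀ φ, ∃ t, Supp c θ κ φ t := by
  have hnc : Continuous fun t => ‖c t‖ := P.cont.norm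
  obtain ⟨t₀, -, h₀⟩ := isCompact_Icc.exists_isMinOn (nonempty_Icc.2 (zero_le_one' ℝ))
    hnc.continuousOn
  obtain ⟨t₁, -, h₁⟩ := isCompact_Icc.exists_isMaxOn (nonempty_Icc.2 (zero_le_one' ℝ))
    hnc.continuousOn
  have hmin : ∀ t, ‖c t₀‖ ≤ ‖c t‖ := by
    intro t
    obtain ⟨s, hs, he⟩ := P.exists_fract t
    rw [← he]; exact h₀ hs
  have hmax : ∀ t, ‖c t‖ ≤ ‖c t₁‖ := by
    intro t
    obtain ⟨s, hs, he⟩ := P.exists_fract t
    rw [← he]; exact h₁ hs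
  have p0 := P.norm_pos t₀
  have p1 := P.norm_pos t₁
  refine ⟨‖c t₀‖ / ‖c t₁‖, by positivity, (div_le_one p1).2 (hmax _), ?_⟩
  intro φ
  have hfc : Continuous fun t => sf φ (c t) := by
    have := P.cont
    unfold sf; fun_prop
  obtain ⟨t₂, -, h₂⟩ := isCompact_Icc.exists_isMaxOn (nonempty_Icc.2 (zero_le_one' ℝ))
    hfc.continuousOn
  have hm : ∀ t, sf φ (c t) ≤ sf φ (c t₂) := by
    intro t
    obtain ⟨s, hs, he⟩ := P.exists_fract t
    rw [← he]; exact h₂ hs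
  have hp : 0 < 2 * π := by positivity
  set k : ℤ := ⌊(φ - θ t₂) / (2 * π)⌋ with hk
  have k1 := Int.floor_le ((φ - θ t₂) / (2 * π))
  have k2 := Int.lt_floor_add_one ((φ - θ t₂) / (2 * π))
  rw [← hk, le_div_iff₀ hp] at k1
  rw [← hk, div_lt_iff₀ hp] at k2
  have hθ := P.θ_add_int t₂ k
  have hc := P.c_add_int t₂ k
  obtain ⟨s, hs⟩ := P.θ_surj (φ - π / 2)
  have hbig : ‖c t₀‖ ≤ ‖c (t₂ + k)‖ * sin (φ - θ (t₂ + k)) := by
    rw [← P.sf_c, hc]
    refine le_trans ?_ (hm s)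
    rw [P.sf_c, hs]
    simpa using hmin s
  set x := φ - θ (t₂ + k) with hx
  have hx0 : 0 ≤ x := by rw [hx, hθ]; linarith
  have hx1 : x < 2 * π := by rw [hx, hθ]; linarith
  have hn := P.norm_pos (t₂ + k)
  have hsinpos : 0 < sin x := by
    by_contra h
    have : ‖c (t₂ + k)‖ * sin x ≤ 0 := mul_nonpos_of_nonneg_of_nonpos hn.le (not_lt.1 h)
    linarith
  have hsin : ‖c t₀‖ / ‖c t₁‖ ≤ sin x := by
    rw [div_le_iff₀ p1]
    calc ‖c t₀‖ ≤ ‖c (t₂ + k)‖ * sin x := hbig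
      _ ≤ ‖c t₁‖ * sin x := mul_le_mul_of_nonneg_right (hmax _) hsinpos.le
      _ = _ := mul_comm _ _
  have hxπ : x ≤ π := by
    by_contra h
    have : sin (x - 2 * π) ≤ 0 :=
      sin_nonpos_of_nonpos_of_neg_pi_le (by linarith) (by linarith [not_le.1 h])
    rw [sin_sub_two_pi] at this
    linarith
  refine ⟨t₂ + k, fun s => by rw [hc]; exact hm s, ?_, ?_⟩
  · have := sin_le (show 0 ≤ π - x by linarith)
    rw [sin_pi_sub] at this
    linarith
  · have := sin_le hx0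
    linarith

lemma supp_add_int {κ φ t : ℝ} (h : Supp c θ κ φ t) (k : ℤ) :
    Supp c θ κ (φ + k * (2 * π)) (t + k) := by
  refine ⟨fun s => ?_, ?_, ?_⟩
  · rw [sf_add_int, sf_add_int, P.c_add_int]; exact h.1 s
  · rw [P.θ_add_int]; linarith [h.2.1]
  · rw [P.θ_add_int]; linarith [h.2.2]

lemma supp_mono {κ φ₁ φ₂ t₁ t₂ : ℝ} (hκ : 0 < κ) (h₁ : Supp c θ κ φ₁ t₁) (h₂ : Supp c θ κ φ₂ t₂)
    (h : φ₁ < φ₂) : t₁ ≤ t₂ := by
  by_contra hlt
  have hlt := not_le.1 hlt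
  have hθ := P.θ_strictMono hlt
  obtain ⟨m1, a1, b1⟩ := h₁
  obtain ⟨m2, a2, b2⟩ := h₂
  have e1 := m1 t₂
  have e2 := m2 t₁
  rw [P.sf_c, P.sf_c] at e1 e2
  have p1 := P.norm_pos t₁
  have p2 := P.norm_pos t₂
  set α := θ t₁
  set β := θ t₂
  have s1 : 0 < sin (φ₁ - α) := sin_pos_of_pos_of_lt_pi (by linarith) (by linarith)
  have s2 : 0 < sin (φ₁ - β) := sin_pos_of_pos_of_lt_pi (by linarith) (by linarith)
  have s3 : 0 < sin (φ₂ - α) := sin_pos_of_pos_of_lt_pi (by linarith) (by linarith)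
  have s4 : 0 < sin (φ₂ - β) := sin_pos_of_pos_of_lt_pi (by linarith) (by linarith)
  have s5 : 0 < sin (φ₂ - φ₁) := sin_pos_of_pos_of_lt_pi (by linarith) (by linarith)
  have s6 : 0 < sin (α - β) := sin_pos_of_pos_of_lt_pi (by linarith) (by linarith)
  have hid : sin (φ₁ - β) * sin (φ₂ - α) - sin (φ₁ - α) * sin (φ₂ - β)
      = sin (φ₂ - φ₁) * sin (α - β) := by
    simp only [sin_sub]; ring
  have hprod : (‖c t₂‖ * sin (φ₁ - β)) * (‖c t₁‖ * sin (φ₂ - α))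
      ≤ (‖c t₁‖ * sin (φ₁ - α)) * (‖c t₂‖ * sin (φ₂ - β)) :=
    mul_le_mul e1 e2 (by positivity) (by positivity)
  have : 0 < ‖c t₁‖ * ‖c t₂‖ * (sin (φ₂ - φ₁) * sin (α - β)) := by positivity
  rw [← hid] at this
  nlinarith

/-- chords of the arc between two nearby support points lie in the cone of the two tangents -/
lemma cone {κ φ₁ φ₂ t₁ t₂ q r : ℝ} (h₁ : Supp c θ κ φ₁ t₁) (h₂ : Supp c θ κ φ₂ t₂)
    (h : φ₁ ≤ φ₂) (hδ : φ₂ - φ₁ < κ) (hq : t₁ ≤ q) (hqr : q ≤ r) (hr : r ≤ t₂) :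
    sf φ₁ (c r - c q) ≤ 0 ∧ 0 ≤ sf φ₂ (c r - c q) := by
  obtain ⟨m1, a1, b1⟩ := h₁
  obtain ⟨m2, a2, b2⟩ := h₂
  have θ1 := P.θ_strictMono.monotone hq
  have θ2 := P.θ_strictMono.monotone hqr
  have θ3 := P.θ_strictMono.monotone hr
  constructor
  · obtain ⟨a, b, ha, hb, hab, he⟩ := P.chord hq hqr (by linarith)
    have hpos : 0 ≤ sf φ₁ (c r) := by
      rw [P.sf_c]
      exact mul_nonneg (norm_nonneg _)
        (sin_nonneg_of_nonneg_of_le_pi (by linarith) (by linarith))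
    rw [sf_sub, he, sf_combo]
    have := m1 r
    nlinarith
  · obtain ⟨a, b, ha, hb, hab, he⟩ := P.chord hqr hr (by linarith)
    have hpos : 0 ≤ sf φ₂ (c q) := by
      rw [P.sf_c]
      exact mul_nonneg (norm_nonneg _)
        (sin_nonneg_of_nonneg_of_le_pi (by linarith) (by linarith))
    rw [sf_sub, he, sf_combo]
    have := m2 q
    nlinarith

end Polar

lemma cone_re {φ₁ φ₂ : ℝ} {d : ℂ} (h : φ₁ < φ₂) (hδ : φ₂ - φ₁ ≤ 1) (h₁ : sf φ₁ d ≤ 0)
    (h₂ : 0 ≤ sf φ₂ d) : cos (φ₂ - φ₁) * ‖d‖ ≤ (d * ex (-φ₁)).re := by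
  set z := d * ex (-φ₁) with hz
  have hd : d = z * ex φ₁ := by rw [hz, mul_assoc, ex_neg_mul, mul_one]
  have hn : ‖d‖ = ‖z‖ := by rw [hz, norm_mul, norm_ex, mul_one]
  have e1 : sf φ₁ d = -z.im := by
    rw [hd]; simp only [sf, Complex.mul_re, Complex.mul_im, ex_re, ex_im]
    linear_combination (-z.im) * sin_sq_add_cos_sq φ₁
  have e2 : sf φ₂ d = z.re * sin (φ₂ - φ₁) - z.im * cos (φ₂ - φ₁) := by
    rw [hd]; simp only [sf, Complex.mul_re, Complex.mul_im, ex_re, ex_im, sin_sub, cos_sub]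
    ring
  set δ := φ₂ - φ₁
  have hδ0 : 0 < δ := sub_pos.2 h
  have hs : 0 < sin δ := sin_pos_of_pos_of_lt_pi hδ0 (by linarith [pi_gt_three])
  have hc : 0 < cos δ := cos_pos_of_mem_Ioo ⟨by linarith [pi_gt_three], by linarith [pi_gt_three]⟩
  have hy : 0 ≤ z.im := by linarith
  have hxy : z.im * cos δ ≤ z.re * sin δ := by linarith
  have hx : 0 ≤ z.re := by
    by_contra hneg
    have : z.re * sin δ < 0 := mul_neg_of_neg_of_pos (not_le.1 hneg) hs
    nlinarith [mul_nonneg hy hc.le]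
  rw [hn]
  refine le_of_sq_le_sq ?_ hx
  rw [mul_pow, Complex.sq_norm, Complex.normSq_apply]
  have hsq : (z.im * cos δ) ^ 2 ≤ (z.re * sin δ) ^ 2 :=
    pow_le_pow_left₀ (mul_nonneg hy hc.le) hxy 2
  have := sin_sq_add_cos_sq δ
  nlinarith

/-- length of an arc whose chords all make a small angle with a fixed direction -/
lemma length_le {c : ℝ → ℂ} (hu : HasUnitSpeedOn c univ) {g : ℝ → ℝ} {k q r : ℝ} (hk : 0 < k)
    (hqr : q ≤ r) (hg : ∀ s t, q ≤ s → s ≤ t → t ≤ r → k * ‖c t - c s‖ ≤ g t - g s) :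
    k * (r - q) ≤ g r - g q := by
  have hmono : ∀ s t, q ≤ s → s ≤ t → t ≤ r → g s ≤ g t := by
    intro s t h1 h2 h3
    have := hg s t h1 h2 h3
    have : 0 ≤ k * ‖c t - c s‖ := by positivity
    linarith
  have h1 := hu (mem_univ q) (mem_univ r)
  have h2 : eVariationOn c (univ ∩ Icc q r) ≤ ENNReal.ofReal ((g r - g q) / k) := by
    refine iSup_le ?_
    rintro ⟨n, u, hum, hus⟩
    have hus' : ∀ i, q ≤ u i ∧ u i ≤ r := fun i => (hus i).2
    calc ∑ i ∈ Finset.range n, edist (c (u (i + 1))) (c (u i))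
        ≤ ∑ i ∈ Finset.range n, ENNReal.ofReal ((g (u (i + 1)) - g (u i)) / k) := by
          refine Finset.sum_le_sum fun i _ => ?_
          rw [edist_dist, dist_eq_norm]
          apply ENNReal.ofReal_le_ofReal
          rw [le_div_iff₀ hk, mul_comm]
          exact hg _ _ (hus' i).1 (hum (Nat.le_succ i)) (hus' (i + 1)).2
      _ = ENNReal.ofReal (∑ i ∈ Finset.range n, (g (u (i + 1)) - g (u i)) / k) := by
          rw [ENNReal.ofReal_sum_of_nonneg]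
          intro i _
          exact div_nonneg (sub_nonneg.2
            (hmono _ _ (hus' i).1 (hum (Nat.le_succ i)) (hus' (i + 1)).2)) hk.le
      _ ≤ ENNReal.ofReal ((g r - g q) / k) := by
          apply ENNReal.ofReal_le_ofReal
          rw [← Finset.sum_div, Finset.sum_range_sub (fun i => g (u i))]
          apply div_le_div_of_nonneg_right _ hk.le
          have a := hmono _ _ le_rfl (hus' 0).1 (hus' 0).2
          have b := hmono _ _ (hus' n).1 (hus' n).2 le_rfl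
          linarith
  rw [h1, ENNReal.ofReal_le_ofReal_iff
    (div_nonneg (sub_nonneg.2 (hmono _ _ le_rfl hqr le_rfl)) hk.le), le_div_iff₀ hk] at h2
  simpa [mul_comm] using h2

lemma lip_of_unit {c : ℝ → ℂ} (hu : HasUnitSpeedOn c univ) (q r : ℝ) : ‖c r - c q‖ ≤ |r - q| := by
  have key : ∀ q r, q ≤ r → ‖c r - c q‖ ≤ r - q := by
    intro q r hqr
    have h1 := hu (mem_univ q) (mem_univ r)
    have h2 := eVariationOn.edist_le c (s := univ ∩ Icc q r) (x := r) (y := q)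
      ⟨mem_univ _, hqr, le_rfl⟩ ⟨mem_univ _, le_rfl, hqr⟩
    rw [h1, edist_dist, dist_eq_norm, ENNReal.ofReal_le_ofReal_iff (by simpa using hqr)] at h2
    simpa using h2
  rcases le_total q r with h | h
  · rw [abs_of_nonneg (sub_nonneg.2 h)]; exact key q r h
  · rw [abs_sub_comm, abs_of_nonneg (sub_nonneg.2 h), norm_sub_rev]; exact key r q h

/-- `L` is an inverse tangent-angle function of the arc-length parametrized loop `c`. -/
structure TanData (c : ℝ → ℂ) (L : ℝ → ℝ) (κ : ℝ) : Prop where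
  mono : Monotone L
  per : ∀ φ, L (φ + 2 * π) = L φ + 1
  κpos : 0 < κ
  cper : Function.Periodic c 1
  lip : ∀ q r, ‖c r - c q‖ ≤ |r - q|
  est : ∀ φ₁ φ₂ q r, φ₁ ≤ φ₂ → φ₂ - φ₁ < κ → L φ₁ ≤ q → q ≤ r → r ≤ L φ₂ →
    ‖c r - c q - ((r - q : ℝ) : ℂ) * ex φ₁‖ ≤ (φ₂ - φ₁) * (r - q)

theorem Polar.exists_tanData {c : ℝ → ℂ} {θ : ℝ → ℝ} {K : Set ℂ} (P : Polar c θ K)
    (hu : HasUnitSpeedOn c univ) : ∃ L κ, TanData c L κ := by
  obtain ⟨κ, hκ, hκ1, hs⟩ := P.exists_supp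
  choose l hl using hs
  have hp : 0 < 2 * π := by positivity
  set L : ℝ → ℝ := fun φ => l (φ - ⌊φ / (2 * π)⌋ * (2 * π)) + ⌊φ / (2 * π)⌋ with hL
  have hLs : ∀ φ, Polar.Supp c θ κ φ (L φ) := by
    intro φ
    have := P.supp_add_int (hl (φ - ⌊φ / (2 * π)⌋ * (2 * π))) ⌊φ / (2 * π)⌋
    simpa [hL] using this
  have hmono : Monotone L := by
    intro a b hab
    rcases eq_or_lt_of_le hab with h | h
    · rw [h]
    · exact P.supp_mono hκ (hLs a) (hLs b) h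
  refine ⟨L, κ, hmono, ?_, hκ, P.per, lip_of_unit hu, ?_⟩
  · intro φ
    have : ⌊(φ + 2 * π) / (2 * π)⌋ = ⌊φ / (2 * π)⌋ + 1 := by
      rw [add_div, div_self hp.ne', Int.floor_add_one]
    simp only [hL, this]
    push_cast
    rw [show φ + 2 * π - (⌊φ / (2 * π)⌋ + 1) * (2 * π) = φ - ⌊φ / (2 * π)⌋ * (2 * π) by ring]
    ring
  · intro φ₁ φ₂ q r h12 hδ hq hqr hr
    rcases eq_or_lt_of_le h12 with h | h
    · subst h
      have : r = q := le_antisymm (hr.trans hq) hqr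
      simp [this]
    set δ := φ₂ - φ₁ with hδdef
    have hδ0 : 0 < δ := sub_pos.2 h
    have hc : 0 < cos δ :=
      cos_pos_of_mem_Ioo ⟨by linarith [pi_gt_three], by linarith [pi_gt_three]⟩
    have hlen := length_le hu (g := fun t => (c t * ex (-φ₁)).re) hc hqr (by
      intro s t h1 h2 h3
      obtain ⟨a, b⟩ := P.cone (hLs φ₁) (hLs φ₂) h12 hδ (hq.trans h1) h2 (h3.trans hr)
      have := cone_re h (by linarith) a b
      simpa [sub_mul] using this)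
    have hlip := lip_of_unit hu q r
    rw [abs_of_nonneg (sub_nonneg.2 hqr)] at hlip
    set z := (c r - c q) * ex (-φ₁) with hz
    have hre : cos δ * (r - q) ≤ z.re := by simpa [hz, sub_mul] using hlen
    have hn : ‖z‖ ≤ r - q := by rw [hz, norm_mul, norm_ex, mul_one]; exact hlip
    have heq : c r - c q - ((r - q : ℝ) : ℂ) * ex φ₁ = (z - ((r - q : ℝ) : ℂ)) * ex φ₁ := by
      rw [sub_mul z, hz, mul_assoc, ex_neg_mul, mul_one]
    rw [heq, norm_mul, norm_ex, mul_one]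
    have hrq : 0 ≤ r - q := sub_nonneg.2 hqr
    refine le_of_sq_le_sq ?_ (by positivity)
    have hn2 : z.re * z.re + z.im * z.im ≤ (r - q) ^ 2 := by
      rw [← Complex.normSq_apply, ← Complex.sq_norm]
      exact pow_le_pow_left₀ (norm_nonneg _) hn 2
    rw [Complex.sq_norm, Complex.normSq_apply]
    simp only [Complex.sub_re, Complex.ofReal_re, Complex.sub_im, Complex.ofReal_im, sub_zero]
    have hcos := one_sub_sq_div_two_le_cos (x := δ)
    have h1 : (1 - δ ^ 2 / 2) * (r - q) ≤ z.re :=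
      le_trans (mul_le_mul_of_nonneg_right hcos hrq) hre
    have h2 : (1 - δ ^ 2 / 2) * (r - q) * (r - q) ≤ z.re * (r - q) :=
      mul_le_mul_of_nonneg_right h1 hrq
    nlinarith

end Pool.Agent.Lib.MP_fd4af6_gt
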